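import Pool.Agent.Y139.SW.B

/-!
Stationary waves whose value and gradient at a point are independent are Gaussian at a point.
-/

set_option autoImplicit false
open MeasureTheory Filter Topology ProbabilityTheory
open scoped ContDiff ENNReal

namespace Pool.Agent.Run7.h143.RW

open Pool.Agent.Y139.SW

noncomputable section

variable {d : ℕ} {S : Type*} [MeasurableSpace S] {P : Measure S} {τ : E d → S → S}

/-- the square of the gradient at `0` -/
def gr (G : S → E d → ℝ) (s : S) : ℝ := ∑ i, D i (G s) 0 ^ 2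

lemma bd_mul {a b : S → ℝ} {B : ℝ} (ma : Measurable a) (ba : ∀ s, |a s| ≤ B)
    (ib : Integrable b P) : Integrable (fun s => a s * b s) P := by
  refine ib.bdd_mul (c := B) ma.aestronglyMeasurable (ae_of_all _ fun s => ?_)
  rw [Real.norm_eq_abs]; exact ba s

/-- integration by parts -/
theorem ident [IsProbabilityMeasure P] (hτ : ∀ x, MeasurePreserving (τ x) P P)
    {G : S → E d → ℝ} (W : Wave P τ G) {k : ℝ → ℝ} (sk : ContDiff ℝ ∞ k) {B : ℝ}
    (b0 : ∀ x, |k x| ≤ B) (b1 : ∀ x, |deriv k x| ≤ B) :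
    ∫ s, deriv k (G s 0) * gr G s ∂P = ∫ s, k (G s 0) * G s 0 ∂P := by
  have W1 := fun i => W.der hτ i
  have W2 := fun i => (W1 i).der hτ i
  have mk : Measurable k := sk.continuous.measurable
  have mk' : Measurable (deriv k) := measurable_deriv k
  have mG := W.m0
  have sf := fun i => (W.sf.comp sk).mul (W1 i).sf
  have e1 : ∀ i s, D i (fun y => k (G s y) * D i (G s) y) 0 =
      deriv k (G s 0) * D i (G s) 0 ^ 2 + k (G s 0) * D i (D i (G s)) 0 := by
    intro i s
    have h := D_mul (f := fun y => k (G s y)) (g := D i (G s)) (sk.comp (W.sf.smooth s))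
      ((W1 i).sf.smooth s) i 0
    rw [h, D_comp sk (W.sf.smooth s)]
    ring
  have j1 : ∀ i, Integrable (fun s => deriv k (G s 0) * D i (G s) 0 ^ 2) P := fun i =>
    bd_mul (mk'.comp mG) (fun s => b1 _) (W1 i).l2
  have j2 : ∀ i, Integrable (fun s => k (G s 0) * D i (D i (G s)) 0) P := fun i =>
    bd_mul (mk.comp mG) (fun s => b0 _) (l2_l1 (W2 i).m0 (W2 i).l2)
  have j0 : ∀ i, Integrable (fun s => k (G s 0) * D i (G s) 0) P := fun i =>
    bd_mul (mk.comp mG) (fun s => b0 _) (l2_l1 (W1 i).m0 (W1 i).l2)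
  have h : ∀ i, ∫ s, deriv k (G s 0) * D i (G s) 0 ^ 2 ∂P =
      -∫ s, k (G s 0) * D i (D i (G s)) 0 ∂P := by
    intro i
    have h := div0 hτ (sf i) i (j0 i) (by
      simp only [e1]
      exact (j1 i).add (j2 i))
    simp only [e1] at h
    rw [integral_add (j1 i) (j2 i)] at h
    linarith
  have l : ∫ s, deriv k (G s 0) * gr G s ∂P = ∑ i, ∫ s, deriv k (G s 0) * D i (G s) 0 ^ 2 ∂P := by
    rw [← integral_finsetSum _ fun i _ => j1 i]
    congr 1; funext s
    unfold gr
    rw [Finset.mul_sum]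
  rw [l]
  simp only [h]
  rw [Finset.sum_neg_distrib, ← integral_finsetSum _ fun i _ => j2 i, ← integral_neg]
  congr 1; funext s
  have := W.eq s 0
  unfold Lap at this
  rw [← Finset.mul_sum, this]; ring

/-- the law of `Y` is the normal law with variance `v`, in terms of the characteristic function -/
def GT (P : Measure S) (Y : S → ℝ) (v : ℝ) : Prop :=
  ∀ t : ℝ, ∫ s, Real.cos (t * Y s) ∂P = Real.exp (-(v * t ^ 2 / 2)) ∧
    ∫ s, Real.sin (t * Y s) ∂P = 0

lemma ode {φ : ℝ → ℝ} {v : ℝ} (h : ∀ t, HasDerivAt φ (-(v * t * φ t)) t) (t : ℝ) :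
    φ t = φ 0 * Real.exp (-(v * t ^ 2 / 2)) := by
  have h1 : ∀ t, HasDerivAt (fun t => φ t * Real.exp (v * t ^ 2 / 2)) 0 t := by
    intro t
    have h2 : HasDerivAt (fun t : ℝ => v * t ^ 2 / 2) (v * t) t := by
      have h := ((hasDerivAt_pow 2 t).const_mul v).div_const 2
      have e : v * t = v * (((2 : ℕ) : ℝ) * t ^ (2 - 1)) / 2 := by
        norm_num
        ring
      rw [e]
      exact h
    have h3 := (h t).mul h2.exp
    have e : (0 : ℝ) = -(v * t * φ t) * Real.exp (v * t ^ 2 / 2) +
        φ t * (Real.exp (v * t ^ 2 / 2) * (v * t)) := by ring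
    rw [e]
    exact h3
  have h4 := is_const_of_deriv_eq_zero (fun t => (h1 t).differentiableAt)
    (fun t => (h1 t).deriv) t 0
  simp only [ne_eq, OfNat.ofNat_ne_zero, not_false_eq_true, zero_pow, mul_zero, zero_div,
    Real.exp_zero, mul_one] at h4
  rw [← h4, Real.exp_neg]
  have := Real.exp_pos (v * t ^ 2 / 2)
  field_simp

lemma der_cos [IsProbabilityMeasure P] {Y : S → ℝ} (mY : Measurable Y) (iY : Integrable Y P)
    (t : ℝ) : HasDerivAt (fun t => ∫ s, Real.cos (t * Y s) ∂P)
      (-∫ s, Real.sin (t * Y s) * Y s ∂P) t := by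
  have := (hasDerivAt_integral_of_dominated_loc_of_deriv_le (μ := P) (𝕜 := ℝ)
    (F := fun t s => Real.cos (t * Y s)) (F' := fun t s => -(Real.sin (t * Y s) * Y s))
    (x₀ := t) (bound := fun s => |Y s|) (s := Set.univ) Filter.univ_mem ?_ ?_ ?_ ?_ ?_ ?_).2
  · rw [integral_neg] at this
    exact this
  · exact .of_forall fun t => (Real.measurable_cos.comp (mY.const_mul t)).aestronglyMeasurable
  · refine Integrable.mono' (integrable_const (1 : ℝ))
      (Real.measurable_cos.comp (mY.const_mul t)).aestronglyMeasurable (ae_of_all _ fun s => ?_)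
    exact Real.abs_cos_le_one _
  · exact ((Real.measurable_sin.comp (mY.const_mul t)).mul mY).neg.aestronglyMeasurable
  · refine ae_of_all _ fun s x _ => ?_
    rw [norm_neg, norm_mul, Real.norm_eq_abs, Real.norm_eq_abs]
    calc |Real.sin (x * Y s)| * |Y s| ≤ 1 * |Y s| :=
          mul_le_mul_of_nonneg_right (Real.abs_sin_le_one _) (abs_nonneg _)
      _ = |Y s| := one_mul _
  · exact iY.abs
  · refine ae_of_all _ fun s x _ => ?_
    have h1 : HasDerivAt (fun x : ℝ => x * Y s) (Y s) x := by
      simpa using (hasDerivAt_id x).mul_const (Y s)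
    have h2 := h1.cos
    have e : -(Real.sin (x * Y s) * Y s) = -Real.sin (x * Y s) * Y s := by ring
    rw [e]
    exact h2

lemma der_sin [IsProbabilityMeasure P] {Y : S → ℝ} (mY : Measurable Y) (iY : Integrable Y P)
    (t : ℝ) : HasDerivAt (fun t => ∫ s, Real.sin (t * Y s) ∂P)
      (∫ s, Real.cos (t * Y s) * Y s ∂P) t := by
  refine (hasDerivAt_integral_of_dominated_loc_of_deriv_le (μ := P) (𝕜 := ℝ)
    (F := fun t s => Real.sin (t * Y s)) (F' := fun t s => Real.cos (t * Y s) * Y s)
    (x₀ := t) (bound := fun s => |Y s|) (s := Set.univ) Filter.univ_mem ?_ ?_ ?_ ?_ ?_ ?_).2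
  · exact .of_forall fun t => (Real.measurable_sin.comp (mY.const_mul t)).aestronglyMeasurable
  · refine Integrable.mono' (integrable_const (1 : ℝ))
      (Real.measurable_sin.comp (mY.const_mul t)).aestronglyMeasurable (ae_of_all _ fun s => ?_)
    exact Real.abs_sin_le_one _
  · exact ((Real.measurable_cos.comp (mY.const_mul t)).mul mY).aestronglyMeasurable
  · refine ae_of_all _ fun s x _ => ?_
    rw [norm_mul, Real.norm_eq_abs, Real.norm_eq_abs]
    calc |Real.cos (x * Y s)| * |Y s| ≤ 1 * |Y s| :=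
          mul_le_mul_of_nonneg_right (Real.abs_cos_le_one _) (abs_nonneg _)
      _ = |Y s| := one_mul _
  · exact iY.abs
  · refine ae_of_all _ fun s x _ => ?_
    have h1 : HasDerivAt (fun x : ℝ => x * Y s) (Y s) x := by
      simpa using (hasDerivAt_id x).mul_const (Y s)
    exact h1.sin

/-- waves with a mean square gradient that is uncorrelated with the functions of the value -/
theorem gauss_of [IsProbabilityMeasure P] (hτ : ∀ x, MeasurePreserving (τ x) P P)
    {G : S → E d → ℝ} (W : Wave P τ G) {v : ℝ}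
    (hc : ∀ t : ℝ, ∫ s, Real.cos (t * G s 0) * gr G s ∂P = v * ∫ s, Real.cos (t * G s 0) ∂P)
    (hs : ∀ t : ℝ, ∫ s, Real.sin (t * G s 0) * gr G s ∂P = v * ∫ s, Real.sin (t * G s 0) ∂P) :
    GT P (fun s => G s 0) v := by
  have iY := l2_l1 W.m0 W.l2
  have l1 : ∀ t x : ℝ, HasDerivAt (fun x => t * x) t x := fun t x => by
    simpa using (hasDerivAt_id x).const_mul t
  have d1 : ∀ t : ℝ, deriv (fun x => Real.sin (t * x)) = fun x => Real.cos (t * x) * t :=
    fun t => funext fun x => ((l1 t x).sin).deriv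
  have d2 : ∀ t : ℝ, deriv (fun x => Real.cos (t * x)) = fun x => -Real.sin (t * x) * t :=
    fun t => funext fun x => ((l1 t x).cos).deriv
  have c1 : ∀ t : ℝ, ContDiff ℝ ∞ (fun x => Real.sin (t * x)) := fun t =>
    Real.contDiff_sin.comp (contDiff_const.mul contDiff_id)
  have c2 : ∀ t : ℝ, ContDiff ℝ ∞ (fun x => Real.cos (t * x)) := fun t =>
    Real.contDiff_cos.comp (contDiff_const.mul contDiff_id)
  have i1 : ∀ t : ℝ, ∫ s, Real.sin (t * G s 0) * G s 0 ∂P =
      v * t * ∫ s, Real.cos (t * G s 0) ∂P := by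
    intro t
    have h := ident hτ W (c1 t) (B := 1 + |t|)
      (fun x => (Real.abs_sin_le_one _).trans (by linarith [abs_nonneg t])) (fun x => by
        rw [d1, abs_mul]
        have := mul_le_mul_of_nonneg_right (Real.abs_cos_le_one (t * x)) (abs_nonneg t)
        linarith)
    rw [← h, d1]
    have e : ∀ s, Real.cos (t * G s 0) * t * gr G s = t * (Real.cos (t * G s 0) * gr G s) :=
      fun s => by ring
    simp only [e]
    rw [integral_const_mul, hc]; ring
  have i2 : ∀ t : ℝ, ∫ s, Real.cos (t * G s 0) * G s 0 ∂P =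
      -(v * t * ∫ s, Real.sin (t * G s 0) ∂P) := by
    intro t
    have h := ident hτ W (c2 t) (B := 1 + |t|)
      (fun x => (Real.abs_cos_le_one _).trans (by linarith [abs_nonneg t])) (fun x => by
        rw [d2, abs_mul, abs_neg]
        have := mul_le_mul_of_nonneg_right (Real.abs_sin_le_one (t * x)) (abs_nonneg t)
        linarith)
    rw [← h, d2]
    have e : ∀ s, -Real.sin (t * G s 0) * t * gr G s = -t * (Real.sin (t * G s 0) * gr G s) :=
      fun s => by ring
    simp only [e]
    rw [integral_const_mul, hs]; ring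
  intro t
  constructor
  · have h := ode (φ := fun t => ∫ s, Real.cos (t * G s 0) ∂P) (v := v) (fun t => by
      have := der_cos W.m0 iY t
      rw [i1] at this
      exact this) t
    rw [h]
    simp
  · have h := ode (φ := fun t => ∫ s, Real.sin (t * G s 0) ∂P) (v := v) (fun t => by
      have := der_sin W.m0 iY t
      rw [i2] at this
      exact this) t
    rw [h]
    simp

/-- value and gradient independent -/
theorem gauss_ind [IsProbabilityMeasure P] (hτ : ∀ x, MeasurePreserving (τ x) P P)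
    {G : S → E d → ℝ} (W : Wave P τ G) (hi : IndepFun (fun s => G s 0) (gr G) P) :
    GT P (fun s => G s 0) (∫ s, G s 0 ^ 2 ∂P) := by
  have W1 := fun i => W.der hτ i
  have ig : Integrable (gr G) P := integrable_finsetSum _ fun i _ => (W1 i).l2
  have eg : ∫ s, gr G s ∂P = ∫ s, G s 0 ^ 2 ∂P := by
    rw [← W.energy hτ]
    exact integral_finsetSum _ fun i _ => (W1 i).l2
  have key : ∀ k : ℝ → ℝ, Measurable k → (∀ x, |k x| ≤ 1) →
      ∫ s, k (G s 0) * gr G s ∂P = (∫ s, G s 0 ^ 2 ∂P) * ∫ s, k (G s 0) ∂P := by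
    intro k mk bk
    have h1 : IndepFun (fun s => k (G s 0)) (gr G) P := hi.comp mk measurable_id
    have h2 := h1.integral_fun_mul_eq_mul_integral
      (mk.comp W.m0).aestronglyMeasurable ig.aestronglyMeasurable
    rw [h2, eg, mul_comm]
  exact gauss_of hτ W (fun t => key _ (Real.measurable_cos.comp (measurable_const_mul t))
    fun x => Real.abs_cos_le_one _) (fun t => key _ (Real.measurable_sin.comp
      (measurable_const_mul t)) fun x => Real.abs_sin_le_one _)

end

end Pool.Agent.Run7.h143.RW
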