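import Pool.Agent.Run7.h143.RW.A

/-!
The coefficients of a wave in the plane.
-/

set_option autoImplicit false
open MeasureTheory Filter Topology ProbabilityTheory
open scoped ContDiff ENNReal

namespace Pool.Agent.Run7.h143.RW

open Pool.Agent.Y139.SW

noncomputable section

/-- real and imaginary part of `(∂₁ - i ∂₂) ^ n f` -/
def RI (f : E 2 → ℝ) : ℕ → (E 2 → ℝ) × (E 2 → ℝ)
  | 0 => (f, fun _ => 0)
  | n + 1 => (fun y => D 0 (RI f n).1 y + D 1 (RI f n).2 y,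
      fun y => D 0 (RI f n).2 y - D 1 (RI f n).1 y)

/-- smooth solutions -/
def Sol (f : E 2 → ℝ) : Prop := ContDiff ℝ ∞ f ∧ ∀ y, Lap f y = -f y

lemma D_lin {f g : E 2 → ℝ} (hf : ContDiff ℝ ∞ f) (hg : ContDiff ℝ ∞ g) (a b : ℝ) (i : Fin 2) :
    D i (fun y => a * f y + b * g y) = fun y => a * D i f y + b * D i g y := by
  funext y
  unfold D
  rw [fderiv_fun_add ((sdiff hf y).const_mul a) ((sdiff hg y).const_mul b),
    fderiv_const_mul (sdiff hf y), fderiv_const_mul (sdiff hg y)]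
  simp

lemma Sol.lin {f g : E 2 → ℝ} (hf : Sol f) (hg : Sol g) (a b : ℝ) :
    Sol (fun y => a * f y + b * g y) := by
  refine ⟨(contDiff_const.mul hf.1).add (contDiff_const.mul hg.1), fun y => ?_⟩
  have h1 := hf.2 y
  have h2 := hg.2 y
  unfold Lap at *
  rw [Fin.sum_univ_two] at *
  rw [D_lin hf.1 hg.1, D_lin hf.1 hg.1, D_lin (D_sm hf.1 0) (D_sm hg.1 0),
    D_lin (D_sm hf.1 1) (D_sm hg.1 1)]
  have h3 : -(a * f y + b * g y) = a * (-f y) + b * (-g y) := by ring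
  rw [h3, ← h1, ← h2]
  ring

lemma Sol.D {f : E 2 → ℝ} (hf : Sol f) (i : Fin 2) : Sol (D i f) := by
  refine ⟨D_sm hf.1 i, fun y => ?_⟩
  rw [Lap_D hf.1]
  have : Lap f = fun y => -f y := funext hf.2
  rw [this]
  show fderiv ℝ (fun y => -f y) y _ = -fderiv ℝ f y _
  rw [fderiv_fun_neg]; rfl

lemma Sol.zero : Sol (fun _ => 0) := by
  refine ⟨contDiff_const, fun y => ?_⟩
  unfold Lap Y139.SW.D
  simp

lemma RI_sol {f : E 2 → ℝ} (hf : Sol f) (n : ℕ) : Sol (RI f n).1 ∧ Sol (RI f n).2 := by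
  induction n with
  | zero => exact ⟨hf, Sol.zero⟩
  | succ n ih =>
    constructor
    · have := (ih.1.D 0).lin (ih.2.D 1) 1 1
      simp only [one_mul] at this
      exact this
    · have := (ih.2.D 0).lin (ih.1.D 1) 1 (-1)
      simp only [one_mul, neg_one_mul, ← sub_eq_add_neg] at this
      exact this

lemma lap2 {f : E 2 → ℝ} (hf : Sol f) (y : E 2) :
    D 0 (D 0 f) y + D 1 (D 1 f) y = -f y := by
  have := hf.2 y
  unfold Lap at this
  rw [Fin.sum_univ_two] at this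
  exact this

lemma rel1 {f : E 2 → ℝ} (hf : Sol f) (n : ℕ) (y : E 2) :
    D 0 (RI f (n + 1)).1 y - D 1 (RI f (n + 1)).2 y = -(RI f n).1 y := by
  obtain ⟨h1, h2⟩ := RI_sol hf n
  have e1 : (RI f (n + 1)).1 = fun y => 1 * D 0 (RI f n).1 y + 1 * D 1 (RI f n).2 y := by
    funext y; show _ + _ = _; ring
  have e2 : (RI f (n + 1)).2 = fun y => 1 * D 0 (RI f n).2 y + (-1) * D 1 (RI f n).1 y := by
    funext y; show _ - _ = _; ring
  rw [e1, e2, D_lin (D_sm h1.1 0) (D_sm h2.1 1), D_lin (D_sm h2.1 0) (D_sm h1.1 1)]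
  have hc := D_comm h2.1 0 1 y
  have := lap2 h1 y
  show 1 * D 0 (D 0 (RI f n).1) y + 1 * D 0 (D 1 (RI f n).2) y -
    (1 * D 1 (D 0 (RI f n).2) y + -1 * D 1 (D 1 (RI f n).1) y) = _
  linarith

lemma rel2 {f : E 2 → ℝ} (hf : Sol f) (n : ℕ) (y : E 2) :
    D 0 (RI f (n + 1)).2 y + D 1 (RI f (n + 1)).1 y = -(RI f n).2 y := by
  obtain ⟨h1, h2⟩ := RI_sol hf n
  have e1 : (RI f (n + 1)).1 = fun y => 1 * D 0 (RI f n).1 y + 1 * D 1 (RI f n).2 y := by
    funext y; show _ + _ = _; ring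
  have e2 : (RI f (n + 1)).2 = fun y => 1 * D 0 (RI f n).2 y + (-1) * D 1 (RI f n).1 y := by
    funext y; show _ - _ = _; ring
  rw [e1, e2, D_lin (D_sm h1.1 0) (D_sm h2.1 1), D_lin (D_sm h2.1 0) (D_sm h1.1 1)]
  have hc := D_comm h1.1 0 1 y
  have := lap2 h2 y
  show 1 * D 0 (D 0 (RI f n).2) y + -1 * D 0 (D 1 (RI f n).1) y +
    (1 * D 1 (D 0 (RI f n).1) y + 1 * D 1 (D 1 (RI f n).2) y) = _
  linarith

lemma rel3 (f : E 2 → ℝ) (n : ℕ) (y : E 2) :
    D 0 (RI f n).1 y + D 1 (RI f n).2 y = (RI f (n + 1)).1 y := rfl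

lemma rel4 (f : E 2 → ℝ) (n : ℕ) (y : E 2) :
    D 0 (RI f n).2 y - D 1 (RI f n).1 y = (RI f (n + 1)).2 y := rfl

lemma d0 {f : E 2 → ℝ} (hf : Sol f) (n : ℕ) (y : E 2) : D 0 (RI f (n + 1)).1 y =
    1 / 2 * (RI f (n + 2)).1 y + (-(1 / 2)) * (RI f n).1 y := by
  linarith [rel1 hf n y, rel3 f (n + 1) y]

lemma d1 {f : E 2 → ℝ} (hf : Sol f) (n : ℕ) (y : E 2) : D 1 (RI f (n + 1)).2 y =
    1 / 2 * (RI f (n + 2)).1 y + 1 / 2 * (RI f n).1 y := by
  linarith [rel1 hf n y, rel3 f (n + 1) y]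

lemma d2 {f : E 2 → ℝ} (hf : Sol f) (n : ℕ) (y : E 2) : D 0 (RI f (n + 1)).2 y =
    1 / 2 * (RI f (n + 2)).2 y + (-(1 / 2)) * (RI f n).2 y := by
  linarith [rel2 hf n y, rel4 f (n + 1) y]

lemma d3 {f : E 2 → ℝ} (hf : Sol f) (n : ℕ) (y : E 2) : D 1 (RI f (n + 1)).1 y =
    (-(1 / 2)) * (RI f (n + 2)).2 y + (-(1 / 2)) * (RI f n).2 y := by
  linarith [rel2 hf n y, rel4 f (n + 1) y]

lemma Dz (i : Fin 2) (y : E 2) : D i (fun _ : E 2 => (0 : ℝ)) y = 0 := by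
  unfold D; simp

lemma z0 (f : E 2 → ℝ) (y : E 2) : D 0 (RI f 0).1 y = (RI f 1).1 y := by
  have := rel3 f 0 y
  have h : D 1 (RI f 0).2 y = 0 := Dz 1 y
  rw [h] at this
  linarith

lemma z1 (f : E 2 → ℝ) (y : E 2) : D 1 (RI f 0).1 y = -(RI f 1).2 y := by
  have := rel4 f 0 y
  have h : D 0 (RI f 0).2 y = 0 := Dz 0 y
  rw [h] at this
  linarith

/-- linear expressions in the coefficients -/
def Rep (H : (E 2 → ℝ) → E 2 → ℝ) : Prop :=
  ∃ (N : ℕ) (a b : ℕ → ℝ), (∀ n, N ≤ n → a n = 0 ∧ b n = 0) ∧ ∀ f, Sol f → ∀ y,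
    H f y = ∑ n ∈ Finset.range N, (a n * (RI f n).1 y + b n * (RI f n).2 y)

lemma ext_sum {N M : ℕ} (h : N ≤ M) {a b : ℕ → ℝ} (hz : ∀ n, N ≤ n → a n = 0 ∧ b n = 0)
    (u v : ℕ → ℝ) : ∑ n ∈ Finset.range N, (a n * u n + b n * v n) =
      ∑ n ∈ Finset.range M, (a n * u n + b n * v n) := by
  refine Finset.sum_subset (fun n hn => ?_) fun n _ hn => ?_
  · rw [Finset.mem_range] at *; omega
  · have hn' : N ≤ n := by
      by_contra h'
      exact hn (Finset.mem_range.2 (by omega))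
    rw [(hz n hn').1, (hz n hn').2]; ring

lemma Rep.lin {H K : (E 2 → ℝ) → E 2 → ℝ} (hH : Rep H) (hK : Rep K) (c e : ℝ) :
    Rep (fun f y => c * H f y + e * K f y) := by
  obtain ⟨N, a, b, h1, h2⟩ := hH
  obtain ⟨M, a', b', h3, h4⟩ := hK
  refine ⟨max N M, fun n => c * a n + e * a' n, fun n => c * b n + e * b' n, fun n hn => ?_,
    fun f hf y => ?_⟩
  · have := h1 n (le_trans (le_max_left _ _) hn)
    have h5 := h3 n (le_trans (le_max_right _ _) hn)
    simp only [this.1, this.2, h5.1, h5.2]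
    simp
  · show c * H f y + e * K f y = ∑ n ∈ Finset.range (max N M),
      ((c * a n + e * a' n) * (RI f n).1 y + (c * b n + e * b' n) * (RI f n).2 y)
    rw [h2 f hf, h4 f hf, ext_sum (le_max_left N M) h1 (fun n => (RI f n).1 y)
      (fun n => (RI f n).2 y), ext_sum (le_max_right N M) h3 (fun n => (RI f n).1 y)
      (fun n => (RI f n).2 y), Finset.mul_sum, Finset.mul_sum, ← Finset.sum_add_distrib]
    refine Finset.sum_congr rfl fun n _ => ?_
    ring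

lemma Rep.re (m : ℕ) : Rep (fun f => (RI f m).1) := by
  classical
  refine ⟨m + 1, fun n => if n = m then 1 else 0, fun _ => 0, fun n hn => ?_, fun f _ y => ?_⟩
  · simp only [and_true]
    rw [if_neg (by omega)]
  · rw [Finset.sum_eq_single m]
    · simp
    · intro n _ hn
      simp [hn]
    · intro h
      exact absurd (Finset.mem_range.2 (Nat.lt_succ_self m)) h

lemma Rep.im (m : ℕ) : Rep (fun f => (RI f m).2) := by
  classical
  refine ⟨m + 1, fun _ => 0, fun n => if n = m then 1 else 0, fun n hn => ?_, fun f _ y => ?_⟩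
  · simp only [true_and]
    rw [if_neg (by omega)]
  · rw [Finset.sum_eq_single m]
    · simp
    · intro n _ hn
      simp [hn]
    · intro h
      exact absurd (Finset.mem_range.2 (Nat.lt_succ_self m)) h

lemma Rep.zero : Rep (fun _ _ => 0) :=
  ⟨0, fun _ => 0, fun _ => 0, fun _ _ => ⟨rfl, rfl⟩, fun _ _ _ => by simp⟩

lemma Rep.congr {H K : (E 2 → ℝ) → E 2 → ℝ} (hH : Rep H)
    (h : ∀ f, Sol f → ∀ y, K f y = H f y) : Rep K := by
  obtain ⟨N, a, b, h1, h2⟩ := hH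
  exact ⟨N, a, b, h1, fun f hf y => by rw [h f hf, h2 f hf]⟩

lemma Rep.sum {H : ℕ → (E 2 → ℝ) → E 2 → ℝ} (hH : ∀ n, Rep (H n)) (c : ℕ → ℝ) (N : ℕ) :
    Rep (fun f y => ∑ n ∈ Finset.range N, c n * H n f y) := by
  induction N with
  | zero => exact Rep.zero.congr fun f _ y => by simp
  | succ N ih =>
    refine (ih.lin (hH N) 1 (c N)).congr fun f _ y => ?_
    rw [Finset.sum_range_succ]; ring

lemma Rep.Dre (i : Fin 2) (m : ℕ) : Rep (fun f y => D i (RI f m).1 y) := by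
  rcases m with _ | m
  · fin_cases i
    · exact (Rep.re 1).congr fun f _ y => z0 f y
    · refine ((Rep.im 1).lin Rep.zero (-1) 0).congr fun f _ y => ?_
      show D 1 (RI f 0).1 y = _
      rw [z1]; ring
  · fin_cases i
    · exact ((Rep.re (m + 2)).lin (Rep.re m) (1 / 2) (-(1 / 2))).congr fun f hf y => d0 hf m y
    · exact ((Rep.im (m + 2)).lin (Rep.im m) (-(1 / 2)) (-(1 / 2))).congr fun f hf y => d3 hf m y

lemma Rep.Dim (i : Fin 2) (m : ℕ) : Rep (fun f y => D i (RI f m).2 y) := by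
  rcases m with _ | m
  · exact Rep.zero.congr fun f _ y => Dz i y
  · fin_cases i
    · exact ((Rep.im (m + 2)).lin (Rep.im m) (1 / 2) (-(1 / 2))).congr fun f hf y => d2 hf m y
    · exact ((Rep.re (m + 2)).lin (Rep.re m) (1 / 2) (1 / 2)).congr fun f hf y => d1 hf m y

lemma Rep.D {H : (E 2 → ℝ) → E 2 → ℝ} (hH : Rep H) (i : Fin 2) :
    Rep (fun f y => Y139.SW.D i (H f) y) := by
  obtain ⟨N, a, b, -, h2⟩ := hH
  refine ((Rep.sum (fun n => Rep.Dre i n) a N).lin (Rep.sum (fun n => Rep.Dim i n) b N)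
    1 1).congr fun f hf y => ?_
  have e : H f = fun y => ∑ n ∈ Finset.range N, (a n * (RI f n).1 y + b n * (RI f n).2 y) :=
    funext (h2 f hf)
  have s : ∀ n, ContDiff ℝ ∞ fun y => a n * (RI f n).1 y + b n * (RI f n).2 y := fun n =>
    (contDiff_const.mul (RI_sol hf n).1.1).add (contDiff_const.mul (RI_sol hf n).2.1)
  rw [e, D_sum _ s]
  simp only [D_lin (RI_sol hf _).1.1 (RI_sol hf _).2.1]
  rw [Finset.sum_add_distrib]; ring

/-- the derivative in the direction `x` -/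
def DX (x : E 2) (f : E 2 → ℝ) (y : E 2) : ℝ := x 0 * D 0 f y + x 1 * D 1 f y

lemma Rep.DX {H : (E 2 → ℝ) → E 2 → ℝ} (hH : Rep H) (x : E 2) :
    Rep (fun f => RW.DX x (H f)) := (hH.D 0).lin (hH.D 1) (x 0) (x 1)

lemma Rep.id : Rep (fun f => f) := Rep.re 0

lemma Rep.iter (x : E 2) (k : ℕ) : Rep (fun f => (RW.DX x)^[k] f) := by
  induction k with
  | zero => exact Rep.id
  | succ k ih =>
    refine (ih.DX x).congr fun f _ y => ?_
    rw [Function.iterate_succ_apply']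

end

end Pool.Agent.Run7.h143.RW
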