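import Pool.Agent.Run7.h143.RW.B

/-!
Waves in the plane: the Taylor series in mean square.
-/

set_option autoImplicit false
open MeasureTheory Filter Topology ProbabilityTheory
open scoped ContDiff ENNReal

namespace Pool.Agent.Run7.h143.RW

open Pool.Agent.Y139.SW

noncomputable section

variable {S : Type*} [MeasurableSpace S] {P : Measure S} {τ : E 2 → S → S}

lemma Wlin [IsProbabilityMeasure P] {G H : S → E 2 → ℝ} (W : Wave P τ G) (V : Wave P τ H)
    (a b : ℝ) : Wave P τ (fun s y => a * G s y + b * H s y) := by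
  have h : ∀ s, Sol (fun y => a * G s y + b * H s y) := fun s =>
    Sol.lin ⟨W.sf.smooth s, W.eq s⟩ ⟨V.sf.smooth s, V.eq s⟩ a b
  refine ⟨⟨fun y => ((W.sf.meas y).const_mul a).add ((V.sf.meas y).const_mul b),
    fun s => (h s).1, fun x s y => ?_⟩, fun s => (h s).2, ?_⟩
  · rw [W.sf.cov, V.sf.cov]
  · have e : ∀ s, (a * G s 0 + b * H s 0) ^ 2 =
        a ^ 2 * G s 0 ^ 2 + 2 * a * b * (G s 0 * H s 0) + b ^ 2 * H s 0 ^ 2 := fun s => by ring
    simp only [e]
    exact ((W.l2.const_mul _).add ((mul_l2 W.m0 V.m0 W.l2 V.l2).const_mul _)).add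
      (V.l2.const_mul _)

lemma Wzero [IsProbabilityMeasure P] {G : S → E 2 → ℝ} (W : Wave P τ G) :
    Wave P τ (fun _ _ => 0 : S → E 2 → ℝ) := by
  have := Wlin W W 0 0
  simpa using this

lemma WRI [IsProbabilityMeasure P] (hτ : ∀ x, MeasurePreserving (τ x) P P)
    {G : S → E 2 → ℝ} (W : Wave P τ G) (n : ℕ) :
    Wave P τ (fun s => (RI (G s) n).1) ∧ Wave P τ (fun s => (RI (G s) n).2) := by
  induction n with
  | zero => exact ⟨W, Wzero W⟩
  | succ n ih =>
    constructor
    · have := Wlin (ih.1.der hτ 0) (ih.2.der hτ 1) 1 1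
      simp only [one_mul] at this
      exact this
    · have := Wlin (ih.2.der hτ 0) (ih.1.der hτ 1) 1 (-1)
      simp only [one_mul, neg_one_mul, ← sub_eq_add_neg] at this
      exact this

lemma WDX [IsProbabilityMeasure P] (hτ : ∀ x, MeasurePreserving (τ x) P P)
    {G : S → E 2 → ℝ} (W : Wave P τ G) (x : E 2) : Wave P τ (fun s => DX x (G s)) :=
  Wlin (W.der hτ 0) (W.der hτ 1) (x 0) (x 1)

lemma Wit [IsProbabilityMeasure P] (hτ : ∀ x, MeasurePreserving (τ x) P P)
    {G : S → E 2 → ℝ} (W : Wave P τ G) (x : E 2) (k : ℕ) :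
    Wave P τ (fun s => (DX x)^[k] (G s)) := by
  induction k with
  | zero => exact W
  | succ k ih =>
    have := WDX hτ ih x
    simp only [← Function.iterate_succ_apply' (DX x)] at this
    exact this

lemma DX_bd [IsProbabilityMeasure P] (hτ : ∀ x, MeasurePreserving (τ x) P P)
    {G : S → E 2 → ℝ} (W : Wave P τ G) (x : E 2) :
    ∫ s, DX x (G s) 0 ^ 2 ∂P ≤ (x 0 ^ 2 + x 1 ^ 2) * ∫ s, G s 0 ^ 2 ∂P := by
  have W1 := fun i => W.der hτ i
  have e := W.energy hτ
  rw [Fin.sum_univ_two] at e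
  rw [← e, ← integral_add (W1 0).l2 (W1 1).l2, ← integral_const_mul]
  refine integral_mono (WDX hτ W x).l2 (((W1 0).l2.add (W1 1).l2).const_mul _) fun s => ?_
  show (x 0 * D 0 (G s) 0 + x 1 * D 1 (G s) 0) ^ 2 ≤
    (x 0 ^ 2 + x 1 ^ 2) * (D 0 (G s) 0 ^ 2 + D 1 (G s) 0 ^ 2)
  nlinarith [sq_nonneg (x 0 * D 1 (G s) 0 - x 1 * D 0 (G s) 0)]

/-- the remainder of the Taylor series -/
def RR (K : ℕ) (x : E 2) (f : E 2 → ℝ) (t : ℝ) : ℝ :=
  f (t • x) - ∑ k ∈ Finset.range K, t ^ k / (k.factorial : ℝ) * (DX x)^[k] f 0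

lemma has_d {f : E 2 → ℝ} (hf : ContDiff ℝ ∞ f) (x : E 2) (t : ℝ) :
    HasDerivAt (fun t : ℝ => f (t • x)) (DX x f (t • x)) t := by
  have h1 : HasDerivAt (fun t : ℝ => t • x) ((1 : ℝ) • x) t := (hasDerivAt_id t).smul_const x
  have h2 := (sdiff hf (t • x)).hasFDerivAt.comp_hasDerivAt t h1
  rw [one_smul] at h2
  have e : fderiv ℝ f (t • x) x = DX x f (t • x) := by
    have hx : x = x 0 • EuclideanSpace.single (0 : Fin 2) (1 : ℝ) +
        x 1 • EuclideanSpace.single (1 : Fin 2) (1 : ℝ) := by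
      ext i
      fin_cases i <;> simp
    have h3 := congrArg (fderiv ℝ f (t • x)) hx
    rw [h3, map_add, map_smul, map_smul]
    rfl
  rw [e] at h2
  exact h2

lemma RR_zero (K : ℕ) (x : E 2) (f : E 2 → ℝ) : RR (K + 1) x f 0 = 0 := by
  unfold RR
  rw [Finset.sum_range_succ']
  simp

lemma RR_der {f : E 2 → ℝ} (hf : ContDiff ℝ ∞ f) (x : E 2) (K : ℕ) (t : ℝ) :
    HasDerivAt (RR (K + 1) x f) (RR K x (DX x f) t) t := by
  unfold RR
  have h1 : ∀ k : ℕ, HasDerivAt (fun t : ℝ => t ^ (k + 1) / ((k + 1).factorial : ℝ) *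
      (DX x)^[k + 1] f 0) (t ^ k / (k.factorial : ℝ) * (DX x)^[k] (DX x f) 0) t := by
    intro k
    have h := ((hasDerivAt_pow (k + 1) t).div_const ((k + 1).factorial : ℝ)).mul_const
      ((DX x)^[k + 1] f 0)
    have e : t ^ k / (k.factorial : ℝ) * (DX x)^[k] (DX x f) 0 =
        ((k + 1 : ℕ) : ℝ) * t ^ (k + 1 - 1) / ((k + 1).factorial : ℝ) * (DX x)^[k + 1] f 0 := by
      rw [Nat.factorial_succ, Nat.add_sub_cancel, Function.iterate_succ_apply]
      have h1 : (k.factorial : ℝ) ≠ 0 := by positivity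
      have h2 : ((k + 1 : ℕ) : ℝ) ≠ 0 := by positivity
      push_cast at h2 ⊢
      field_simp
    rw [e]
    exact h
  have h2 : HasDerivAt (fun t : ℝ => ∑ k ∈ Finset.range (K + 1),
      t ^ k / (k.factorial : ℝ) * (DX x)^[k] f 0)
      (∑ k ∈ Finset.range K, t ^ k / (k.factorial : ℝ) * (DX x)^[k] (DX x f) 0) t := by
    have e : (fun t : ℝ => ∑ k ∈ Finset.range (K + 1),
        t ^ k / (k.factorial : ℝ) * (DX x)^[k] f 0) = fun t : ℝ =>
        ∑ k ∈ Finset.range K, t ^ (k + 1) / ((k + 1).factorial : ℝ) * (DX x)^[k + 1] f 0 +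
          f 0 := by
      funext t
      rw [Finset.sum_range_succ']
      simp
    rw [e]
    have := (HasDerivAt.fun_sum fun k (_ : k ∈ Finset.range K) => h1 k).add_const (f 0)
    exact this
  exact (has_d hf x t).sub h2

lemma RR_cont {f : E 2 → ℝ} (hf : ContDiff ℝ ∞ f) (x : E 2) (K : ℕ) : Continuous (RR K x f) := by
  unfold RR
  refine (hf.continuous.comp (continuous_id.smul continuous_const)).sub ?_
  exact continuous_finsetSum _ fun k _ => by fun_prop

lemma DX_sm {f : E 2 → ℝ} (hf : ContDiff ℝ ∞ f) (x : E 2) : ContDiff ℝ ∞ (DX x f) :=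
  (contDiff_const.mul (D_sm hf 0)).add (contDiff_const.mul (D_sm hf 1))

lemma sq_int {g : ℝ → ℝ} (cg : Continuous g) {t : ℝ} (t0 : 0 ≤ t) :
    (∫ u in (0 : ℝ)..t, g u) ^ 2 ≤ t * ∫ u in (0 : ℝ)..t, g u ^ 2 := by
  rcases t0.eq_or_lt with h | h
  · rw [← h]; simp
  · obtain ⟨a, ha⟩ : ∃ a, a = (∫ u in (0 : ℝ)..t, g u) / t := ⟨_, rfl⟩
    have h1 : 0 ≤ ∫ u in (0 : ℝ)..t, (g u - a) ^ 2 :=
      intervalIntegral.integral_nonneg h.le fun u _ => sq_nonneg _
    have e : ∀ u, (g u - a) ^ 2 = g u ^ 2 - 2 * a * g u + a ^ 2 := fun u => by ring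
    simp only [e] at h1
    have i1 : IntervalIntegrable (fun u => g u ^ 2) volume 0 t := (cg.pow 2).intervalIntegrable _ _
    have i2 : IntervalIntegrable (fun u => 2 * a * g u) volume 0 t :=
      (continuous_const.mul cg).intervalIntegrable _ _
    have i3 : IntervalIntegrable (fun _ : ℝ => a ^ 2) volume 0 t :=
      continuous_const.intervalIntegrable _ _
    have h3 : ∫ u in (0 : ℝ)..t, (g u ^ 2 - 2 * a * g u + a ^ 2) =
        (∫ u in (0 : ℝ)..t, g u ^ 2) - 2 * a * (∫ u in (0 : ℝ)..t, g u) + t * a ^ 2 := by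
      rw [intervalIntegral.integral_add (i1.sub i2) i3, intervalIntegral.integral_sub i1 i2,
        intervalIntegral.integral_const_mul, intervalIntegral.integral_const]
      simp
    rw [h3] at h1
    have h2 : ∫ u in (0 : ℝ)..t, g u = a * t := by rw [ha]; field_simp
    rw [h2] at h1 ⊢
    nlinarith

/-- the mean square of the remainder -/
theorem RR_bd [IsProbabilityMeasure P] (hτ : ∀ x, MeasurePreserving (τ x) P P) (x : E 2)
    (K : ℕ) : ∀ {G : S → E 2 → ℝ}, Wave P τ G → ∀ t : ℝ, 0 ≤ t →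
      ∫⁻ s, ENNReal.ofReal (RR K x (G s) t ^ 2) ∂P ≤
        ENNReal.ofReal ((x 0 ^ 2 + x 1 ^ 2) ^ K / (K.factorial : ℝ) * (∫ s, G s 0 ^ 2 ∂P) *
          t ^ (2 * K)) := by
  induction K with
  | zero =>
    intro G W t _
    have e : ∀ s, RR 0 x (G s) t = G s (t • x) := fun s => by unfold RR; simp
    simp only [e]
    rw [st_lint hτ W.sf (t • x) (k := fun x => ENNReal.ofReal (x ^ 2))
      (measurable_id.pow_const 2).ennreal_ofReal,
      ← ofReal_integral_eq_lintegral_ofReal W.l2 (ae_of_all _ fun s => sq_nonneg _)]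
    simp
  | succ K ih =>
    intro G W t t0
    obtain ⟨q, hq⟩ : ∃ q, q = x 0 ^ 2 + x 1 ^ 2 := ⟨_, rfl⟩
    have q0 : 0 ≤ q := by rw [hq]; positivity
    rw [← hq] at ih ⊢
    have V := WDX hτ W x
    have bV := DX_bd hτ W x
    rw [← hq] at bV
    have c1 : ∀ s, Continuous (RR K x (DX x (G s))) := fun s => RR_cont (V.sf.smooth s) x K
    have m1 : ∀ u, Measurable fun s => RR K x (DX x (G s)) u := by
      intro u
      unfold RR
      refine (V.sf.meas _).sub (Finset.measurable_fun_sum _ fun k _ => ?_)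
      exact (((Wit hτ V x k).sf.meas 0).const_mul _)
    have mj : Measurable (Function.uncurry fun (u : ℝ) (s : S) => RR K x (DX x (G s)) u) :=
      measurable_uncurry_of_continuous_of_measurable (fun s => c1 s) m1
    have step : ∀ s, RR (K + 1) x (G s) t ^ 2 ≤
        t * ∫ u in (0 : ℝ)..t, RR K x (DX x (G s)) u ^ 2 := by
      intro s
      have h1 := intervalIntegral.integral_eq_sub_of_hasDerivAt (a := 0) (b := t)
        (f := RR (K + 1) x (G s)) (f' := RR K x (DX x (G s)))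
        (fun u _ => RR_der (W.sf.smooth s) x K u) ((c1 s).intervalIntegrable _ _)
      rw [RR_zero, sub_zero] at h1
      rw [← h1]
      exact sq_int (c1 s) t0
    have step2 : ∀ s, ENNReal.ofReal (RR (K + 1) x (G s) t ^ 2) ≤ ENNReal.ofReal t *
        ∫⁻ u in Set.Ioc 0 t, ENNReal.ofReal (RR K x (DX x (G s)) u ^ 2) := by
      intro s
      refine (ENNReal.ofReal_le_ofReal (step s)).trans ?_
      rw [ENNReal.ofReal_mul t0, intervalIntegral.integral_of_le t0]
      refine mul_le_mul_right ?_ _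
      rw [ofReal_integral_eq_lintegral_ofReal]
      · exact (((c1 s).pow 2).intervalIntegrable 0 t).1
      · exact ae_of_all _ fun u => sq_nonneg _
    have mm : Measurable (Function.uncurry fun (s : S) (u : ℝ) =>
        ENNReal.ofReal (RR K x (DX x (G s)) u ^ 2)) :=
      ((mj.comp measurable_swap).pow_const 2).ennreal_ofReal
    calc ∫⁻ s, ENNReal.ofReal (RR (K + 1) x (G s) t ^ 2) ∂P
        ≤ ∫⁻ s, (ENNReal.ofReal t *
            ∫⁻ u in Set.Ioc 0 t, ENNReal.ofReal (RR K x (DX x (G s)) u ^ 2)) ∂P :=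
          lintegral_mono step2
      _ = ENNReal.ofReal t * ∫⁻ s, (∫⁻ u in Set.Ioc 0 t,
            ENNReal.ofReal (RR K x (DX x (G s)) u ^ 2)) ∂P :=
          lintegral_const_mul _ mm.lintegral_prod_right'
      _ = ENNReal.ofReal t * ∫⁻ u in Set.Ioc 0 t, (∫⁻ s,
            ENNReal.ofReal (RR K x (DX x (G s)) u ^ 2) ∂P) := by
          rw [lintegral_lintegral_swap mm.aemeasurable]
      _ ≤ ENNReal.ofReal t * ∫⁻ u in Set.Ioc 0 t, ENNReal.ofReal
            (q ^ K / (K.factorial : ℝ) * (q * ∫ s, G s 0 ^ 2 ∂P) * u ^ (2 * K)) := by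
          refine mul_le_mul_right ?_ _
          refine setLIntegral_mono' measurableSet_Ioc fun u hu => ?_
          refine (ih V u hu.1.le).trans (ENNReal.ofReal_le_ofReal ?_)
          have : 0 ≤ q ^ K / (K.factorial : ℝ) := by positivity
          have h2 : (0 : ℝ) ≤ u ^ (2 * K) := pow_nonneg hu.1.le _
          exact mul_le_mul_of_nonneg_right (mul_le_mul_of_nonneg_left bV this) h2
      _ = ENNReal.ofReal t * ENNReal.ofReal (∫ u in (0 : ℝ)..t,
            (q ^ K / (K.factorial : ℝ) * (q * ∫ s, G s 0 ^ 2 ∂P) * u ^ (2 * K))) := by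
          have g0 : 0 ≤ ∫ s, G s 0 ^ 2 ∂P := integral_nonneg fun s => sq_nonneg _
          rw [intervalIntegral.integral_of_le t0, ofReal_integral_eq_lintegral_ofReal]
          · exact (Continuous.intervalIntegrable (by fun_prop) 0 t).1
          · refine (ae_restrict_iff' measurableSet_Ioc).2 (ae_of_all _ fun u hu => ?_)
            have h2 : (0 : ℝ) ≤ u ^ (2 * K) := pow_nonneg hu.1.le _
            show 0 ≤ q ^ K / (K.factorial : ℝ) * (q * ∫ s, G s 0 ^ 2 ∂P) * u ^ (2 * K)
            positivity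
      _ ≤ ENNReal.ofReal (q ^ (K + 1) / ((K + 1).factorial : ℝ) * (∫ s, G s 0 ^ 2 ∂P) *
          t ^ (2 * (K + 1))) := by
          have g0 : 0 ≤ ∫ s, G s 0 ^ 2 ∂P := integral_nonneg fun s => sq_nonneg _
          rw [← ENNReal.ofReal_mul t0]
          refine ENNReal.ofReal_le_ofReal ?_
          rw [intervalIntegral.integral_const_mul, integral_pow, Nat.factorial_succ]
          obtain ⟨g, hg⟩ : ∃ g, g = ∫ s, G s 0 ^ 2 ∂P := ⟨_, rfl⟩
          rw [← hg] at g0 ⊢
          have f0 : (0 : ℝ) < (K.factorial : ℝ) := by positivity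
          have e1 : t * (q ^ K / (K.factorial : ℝ) * (q * g) *
              ((t ^ (2 * K + 1) - 0 ^ (2 * K + 1)) / (((2 * K : ℕ) : ℝ) + 1))) =
              (q ^ (K + 1) * g * t ^ (2 * (K + 1)) / (K.factorial : ℝ)) *
                (1 / (2 * (K : ℝ) + 1)) := by
            rw [zero_pow (by omega), sub_zero]
            push_cast
            have : (2 * (K : ℝ) + 1) ≠ 0 := by positivity
            field_simp
            ring
          have e2 : q ^ (K + 1) / (((K + 1) * K.factorial : ℕ) : ℝ) * g * t ^ (2 * (K + 1)) =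
              (q ^ (K + 1) * g * t ^ (2 * (K + 1)) / (K.factorial : ℝ)) *
                (1 / ((K : ℝ) + 1)) := by
            push_cast
            have : ((K : ℝ) + 1) ≠ 0 := by positivity
            field_simp
          rw [e1, e2]
          refine mul_le_mul_of_nonneg_left ?_ (by positivity)
          refine one_div_le_one_div_of_le (by positivity) ?_
          have : (0 : ℝ) ≤ K := Nat.cast_nonneg K
          linarith

end

end Pool.Agent.Run7.h143.RW
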