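import Pool.Agent.Run7.h143.RW.C

/-!
Waves in the plane with independent coefficients are Gaussian.
-/

set_option autoImplicit false
open MeasureTheory Filter Topology ProbabilityTheory
open scoped ContDiff ENNReal

namespace Pool.Agent.Run7.h143.RW

open Pool.Agent.Y139.SW

noncomputable section

variable {S : Type*} [MeasurableSpace S] {P : Measure S} {τ : E 2 → S → S}

/-- the coefficients of the waves -/
def cf (G : S → E 2 → ℝ) (n : ℕ) (s : S) : ℝ × ℝ := ((RI (G s) n).1 0, (RI (G s) n).2 0)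

lemma cf_meas [IsProbabilityMeasure P] (hτ : ∀ x, MeasurePreserving (τ x) P P)
    {G : S → E 2 → ℝ} (W : Wave P τ G) (n : ℕ) : Measurable (cf G n) :=
  ((WRI hτ W n).1.m0).prodMk ((WRI hτ W n).2.m0)

theorem GT_cf [IsProbabilityMeasure P] (hτ : ∀ x, MeasurePreserving (τ x) P P)
    {G : S → E 2 → ℝ} (W : Wave P τ G) (hi : iIndepFun (cf G) P) (n : ℕ) (a b : ℝ) :
    GT P (fun s => a * (RI (G s) n).1 0 + b * (RI (G s) n).2 0)
      (∫ s, (a * (RI (G s) n).1 0 + b * (RI (G s) n).2 0) ^ 2 ∂P) := by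
  have V := Wlin (WRI hτ W n).1 (WRI hτ W n).2 a b
  have so : ∀ s, Sol (G s) := fun s => ⟨W.sf.smooth s, W.eq s⟩
  refine gauss_ind hτ V ?_
  have eg : ∀ s, gr (fun s y => a * (RI (G s) n).1 y + b * (RI (G s) n).2 y) s =
      (a * D 0 (RI (G s) n).1 0 + b * D 0 (RI (G s) n).2 0) ^ 2 +
        (a * D 1 (RI (G s) n).1 0 + b * D 1 (RI (G s) n).2 0) ^ 2 := by
    intro s
    unfold gr
    rw [Fin.sum_univ_two, D_lin (RI_sol (so s) n).1.1 (RI_sol (so s) n).2.1,
      D_lin (RI_sol (so s) n).1.1 (RI_sol (so s) n).2.1]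
  rcases n with _ | n
  · have h := hi.indepFun (show (0 : ℕ) ≠ 1 by decide)
    have h2 := h.comp (φ := fun p : ℝ × ℝ => a * p.1 + b * p.2)
      (ψ := fun p : ℝ × ℝ => (a * p.1) ^ 2 + (a * (-p.2)) ^ 2) (by fun_prop) (by fun_prop)
    have e : gr (fun s y => a * (RI (G s) 0).1 y + b * (RI (G s) 0).2 y) =
        (fun p : ℝ × ℝ => (a * p.1) ^ 2 + (a * (-p.2)) ^ 2) ∘ cf G 1 := by
      funext s
      rw [eg, z0, z1]
      have h3 : ∀ i, D i (RI (G s) 0).2 0 = 0 := fun i => Dz i 0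
      rw [h3, h3]
      show _ = (a * (RI (G s) 1).1 0) ^ 2 + (a * (-(RI (G s) 1).2 0)) ^ 2
      ring
    rw [e]
    exact h2
  · have h := (hi.indepFun_prodMk (cf_meas hτ W) n (n + 2) (n + 1) (by omega) (by omega)).symm
    have h2 := h.comp (φ := fun p : ℝ × ℝ => a * p.1 + b * p.2)
      (ψ := fun p : (ℝ × ℝ) × (ℝ × ℝ) =>
        (a * (1 / 2 * p.2.1 + (-(1 / 2)) * p.1.1) + b * (1 / 2 * p.2.2 + (-(1 / 2)) * p.1.2)) ^ 2 +
        (a * ((-(1 / 2)) * p.2.2 + (-(1 / 2)) * p.1.2) +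
          b * (1 / 2 * p.2.1 + 1 / 2 * p.1.1)) ^ 2) (by fun_prop) (by fun_prop)
    have e : gr (fun s y => a * (RI (G s) (n + 1)).1 y + b * (RI (G s) (n + 1)).2 y) =
        (fun p : (ℝ × ℝ) × (ℝ × ℝ) =>
        (a * (1 / 2 * p.2.1 + (-(1 / 2)) * p.1.1) + b * (1 / 2 * p.2.2 + (-(1 / 2)) * p.1.2)) ^ 2 +
        (a * ((-(1 / 2)) * p.2.2 + (-(1 / 2)) * p.1.2) +
          b * (1 / 2 * p.2.1 + 1 / 2 * p.1.1)) ^ 2) ∘ fun s => (cf G n s, cf G (n + 2) s) := by
      funext s
      rw [eg, d0 (so s), d1 (so s), d2 (so s), d3 (so s)]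
      rfl
    rw [e]
    exact h2

lemma trig_int [IsProbabilityMeasure P] {Y : S → ℝ} (mY : Measurable Y) (t : ℝ) :
    Integrable (fun s => Real.cos (t * Y s)) P ∧ Integrable (fun s => Real.sin (t * Y s)) P := by
  constructor
  · refine Integrable.mono' (integrable_const (1 : ℝ))
      (Real.measurable_cos.comp (mY.const_mul t)).aestronglyMeasurable (ae_of_all _ fun s => ?_)
    exact Real.abs_cos_le_one _
  · refine Integrable.mono' (integrable_const (1 : ℝ))
      (Real.measurable_sin.comp (mY.const_mul t)).aestronglyMeasurable (ae_of_all _ fun s => ?_)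
    exact Real.abs_sin_le_one _

lemma GT_add [IsProbabilityMeasure P] {X Y : S → ℝ} (mX : Measurable X) (mY : Measurable Y)
    {v w : ℝ} (hX : GT P X v) (hY : GT P Y w) (hi : IndepFun X Y P) :
    GT P (fun s => X s + Y s) (v + w) := by
  intro t
  have mc : Measurable fun x : ℝ => Real.cos (t * x) :=
    Real.measurable_cos.comp (measurable_const_mul t)
  have ms : Measurable fun x : ℝ => Real.sin (t * x) :=
    Real.measurable_sin.comp (measurable_const_mul t)
  have p : ∀ {k l : ℝ → ℝ}, Measurable k → Measurable l →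
      ∫ s, k (X s) * l (Y s) ∂P = (∫ s, k (X s) ∂P) * ∫ s, l (Y s) ∂P := by
    intro k l mk ml
    have h : IndepFun (fun s => k (X s)) (fun s => l (Y s)) P := hi.comp mk ml
    exact h.integral_fun_mul_eq_mul_integral (mk.comp mX).aestronglyMeasurable
      (ml.comp mY).aestronglyMeasurable
  have bnd : ∀ {k l : ℝ → ℝ}, Measurable k → Measurable l → (∀ x, |k x| ≤ 1) →
      (∀ x, |l x| ≤ 1) → Integrable (fun s => k (X s) * l (Y s)) P := by
    intro k l mk ml bk bl
    refine Integrable.mono' (integrable_const (1 : ℝ))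
      ((mk.comp mX).mul (ml.comp mY)).aestronglyMeasurable (ae_of_all _ fun s => ?_)
    rw [Real.norm_eq_abs, abs_mul]
    exact mul_le_one₀ (bk _) (abs_nonneg _) (bl _)
  have bc : ∀ x, |Real.cos (t * x)| ≤ 1 := fun x => Real.abs_cos_le_one _
  have bs : ∀ x, |Real.sin (t * x)| ≤ 1 := fun x => Real.abs_sin_le_one _
  obtain ⟨x1, x2⟩ := hX t
  obtain ⟨y1, y2⟩ := hY t
  constructor
  · have e : ∀ s, Real.cos (t * (X s + Y s)) = Real.cos (t * X s) * Real.cos (t * Y s) -
        Real.sin (t * X s) * Real.sin (t * Y s) := fun s => by rw [mul_add, Real.cos_add]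
    simp only [e]
    rw [integral_sub (bnd mc mc bc bc) (bnd ms ms bs bs)]
    have q1 := p mc mc
    have q2 := p ms ms
    rw [q1, q2, x1, y1, x2, y2, mul_zero, sub_zero, ← Real.exp_add]
    congr 1; ring
  · have e : ∀ s, Real.sin (t * (X s + Y s)) = Real.sin (t * X s) * Real.cos (t * Y s) +
        Real.cos (t * X s) * Real.sin (t * Y s) := fun s => by rw [mul_add, Real.sin_add]
    simp only [e]
    rw [integral_add (bnd ms mc bs bc) (bnd mc ms bc bs)]
    have q1 := p ms mc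
    have q2 := p mc ms
    rw [q1, q2, x2, y2]; ring

theorem GT_sum [IsProbabilityMeasure P] (hτ : ∀ x, MeasurePreserving (τ x) P P)
    {G : S → E 2 → ℝ} (W : Wave P τ G) (hi : iIndepFun (cf G) P) (a b : ℕ → ℝ) (N : ℕ) :
    Measurable (fun s => ∑ n ∈ Finset.range N, (a n * (RI (G s) n).1 0 + b n * (RI (G s) n).2 0)) ∧
    Integrable (fun s => (∑ n ∈ Finset.range N,
      (a n * (RI (G s) n).1 0 + b n * (RI (G s) n).2 0)) ^ 2) P ∧
    GT P (fun s => ∑ n ∈ Finset.range N, (a n * (RI (G s) n).1 0 + b n * (RI (G s) n).2 0))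
      (∫ s, (∑ n ∈ Finset.range N,
        (a n * (RI (G s) n).1 0 + b n * (RI (G s) n).2 0)) ^ 2 ∂P) := by
  induction N with
  | zero => exact ⟨by simp, by simp, fun t => by simp⟩
  | succ N ih =>
    obtain ⟨h1, h2, h4⟩ := ih
    have V := Wlin (WRI hτ W N).1 (WRI hτ W N).2 (a N) (b N)
    obtain ⟨X, hX⟩ : ∃ X : ℕ → S → ℝ, X = fun n s =>
      a n * (RI (G s) n).1 0 + b n * (RI (G s) n).2 0 := ⟨_, rfl⟩
    have hXi : iIndepFun X P := by
      have := hi.comp (fun n (p : ℝ × ℝ) => a n * p.1 + b n * p.2) fun n => by fun_prop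
      rw [hX]
      exact this
    have mX : ∀ n, Measurable (X n) := fun n => by
      rw [hX]
      exact ((WRI hτ W n).1.m0.const_mul _).add ((WRI hτ W n).2.m0.const_mul _)
    have ind : IndepFun (fun s => ∑ n ∈ Finset.range N, X n s) (X N) P := by
      have := hXi.indepFun_finsetSum_of_notMem mX (s := Finset.range N) (i := N) (by simp)
      have e : (fun s => ∑ n ∈ Finset.range N, X n s) = ∑ n ∈ Finset.range N, X n := by
        funext s; rw [Finset.sum_apply]
      rw [e]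
      exact this
    have e0 : ∀ s, ∑ n ∈ Finset.range N, (a n * (RI (G s) n).1 0 + b n * (RI (G s) n).2 0) =
        ∑ n ∈ Finset.range N, X n s := fun s => by rw [hX]
    have eN : ∀ s, a N * (RI (G s) N).1 0 + b N * (RI (G s) N).2 0 = X N s := fun s => by rw [hX]
    have gN := GT_cf hτ W hi N (a N) (b N)
    have vl : Integrable (fun s => (a N * (RI (G s) N).1 0 + b N * (RI (G s) N).2 0) ^ 2) P := V.l2
    have vm : ∫ s, (a N * (RI (G s) N).1 0 + b N * (RI (G s) N).2 0) ∂P = 0 := V.mean hτ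
    simp only [eN] at gN vl vm
    simp only [Finset.sum_range_succ, e0, eN] at h1 h2 h4 ⊢
    have ixy := mul_l2 h1 (mX N) h2 vl
    have zxy : ∫ s, (∑ n ∈ Finset.range N, X n s) * X N s ∂P = 0 := by
      rw [ind.integral_fun_mul_eq_mul_integral h1.aestronglyMeasurable
        (mX N).aestronglyMeasurable, vm, mul_zero]
    have e : ∀ s, (∑ n ∈ Finset.range N, X n s + X N s) ^ 2 =
        (∑ n ∈ Finset.range N, X n s) ^ 2 + 2 * ((∑ n ∈ Finset.range N, X n s) * X N s) +
          X N s ^ 2 := fun s => by ring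
    refine ⟨h1.add (mX N), ?_, ?_⟩
    · simp only [e]
      exact (h2.add (ixy.const_mul 2)).add vl
    · have := GT_add h1 (mX N) h4 gN ind
      have ev : ∫ s, (∑ n ∈ Finset.range N, X n s + X N s) ^ 2 ∂P =
          ∫ s, (∑ n ∈ Finset.range N, X n s) ^ 2 ∂P + ∫ s, X N s ^ 2 ∂P := by
        simp only [e]
        have i2 : Integrable (fun s => 2 * ((∑ n ∈ Finset.range N, X n s) * X N s)) P :=
          ixy.const_mul 2
        have i12 : Integrable (fun s => (∑ n ∈ Finset.range N, X n s) ^ 2 +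
          2 * ((∑ n ∈ Finset.range N, X n s) * X N s)) P := h2.add i2
        rw [integral_add i12 vl, integral_add h2 i2, integral_const_mul, zxy]
        ring
      rw [ev]
      exact this

lemma cs {a b : S → ℝ} (ma : Measurable a) (mb : Measurable b)
    (ia : Integrable (fun s => a s ^ 2) P) (ib : Integrable (fun s => b s ^ 2) P) :
    (∫ s, a s * b s ∂P) ^ 2 ≤ (∫ s, a s ^ 2 ∂P) * ∫ s, b s ^ 2 ∂P := by
  have iab := mul_l2 ma mb ia ib
  have h : ∀ r : ℝ, 0 ≤ (∫ s, b s ^ 2 ∂P) * (r * r) + (2 * ∫ s, a s * b s ∂P) * r +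
      ∫ s, a s ^ 2 ∂P := by
    intro r
    have h1 : 0 ≤ ∫ s, (a s + r * b s) ^ 2 ∂P := integral_nonneg fun s => sq_nonneg _
    have e : ∀ s, (a s + r * b s) ^ 2 = a s ^ 2 + 2 * r * (a s * b s) + r ^ 2 * b s ^ 2 :=
      fun s => by ring
    simp only [e] at h1
    have i2 : Integrable (fun s => 2 * r * (a s * b s)) P := iab.const_mul _
    have i3 : Integrable (fun s => r ^ 2 * b s ^ 2) P := ib.const_mul _
    have i12 : Integrable (fun s => a s ^ 2 + 2 * r * (a s * b s)) P := ia.add i2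
    rw [integral_add i12 i3, integral_add ia i2, integral_const_mul,
      integral_const_mul] at h1
    linarith
  have := discrim_le_zero h
  unfold discrim at this
  nlinarith

theorem GT_lim [IsProbabilityMeasure P] {Y : S → ℝ} {Z : ℕ → S → ℝ} (mY : Measurable Y)
    (mZ : ∀ K, Measurable (Z K)) (iY : Integrable (fun s => Y s ^ 2) P)
    (iD : ∀ K, Integrable (fun s => (Y s - Z K s) ^ 2) P)
    (h : Tendsto (fun K => ∫ s, (Y s - Z K s) ^ 2 ∂P) atTop (𝓝 0))
    (g : ∀ K, GT P (Z K) (∫ s, Z K s ^ 2 ∂P)) : GT P Y (∫ s, Y s ^ 2 ∂P) := by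
  have mD : ∀ K, Measurable fun s => Y s - Z K s := fun K => mY.sub (mZ K)
  have sq : Tendsto (fun K => Real.sqrt ((∫ s, Y s ^ 2 ∂P) * ∫ s, (Y s - Z K s) ^ 2 ∂P)) atTop
      (𝓝 0) := by
    have := (h.const_mul (∫ s, Y s ^ 2 ∂P)).sqrt
    simpa using this
  have sq1 : Tendsto (fun K => Real.sqrt (∫ s, (Y s - Z K s) ^ 2 ∂P)) atTop (𝓝 0) := by
    simpa using h.sqrt
  have vK : Tendsto (fun K => ∫ s, Z K s ^ 2 ∂P) atTop (𝓝 (∫ s, Y s ^ 2 ∂P)) := by
    have e : ∀ K, ∫ s, Z K s ^ 2 ∂P = ∫ s, Y s ^ 2 ∂P - 2 * (∫ s, Y s * (Y s - Z K s) ∂P) +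
        ∫ s, (Y s - Z K s) ^ 2 ∂P := by
      intro K
      have e1 : ∀ s, Z K s ^ 2 = Y s ^ 2 - 2 * (Y s * (Y s - Z K s)) + (Y s - Z K s) ^ 2 :=
        fun s => by ring
      have i1 := mul_l2 mY (mD K) iY (iD K)
      have i2 : Integrable (fun s => 2 * (Y s * (Y s - Z K s))) P := i1.const_mul 2
      simp only [e1]
      have i12 : Integrable (fun s => Y s ^ 2 - 2 * (Y s * (Y s - Z K s))) P := iY.sub i2
      rw [integral_add i12 (iD K), integral_sub iY i2, integral_const_mul]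
    have c : Tendsto (fun K => ∫ s, Y s * (Y s - Z K s) ∂P) atTop (𝓝 0) := by
      refine squeeze_zero_norm (fun K => ?_) sq
      exact Real.abs_le_sqrt (cs mY (mD K) iY (iD K))
    have := ((c.const_mul 2).const_sub (∫ s, Y s ^ 2 ∂P)).add h
    simp only [mul_zero, sub_zero, add_zero] at this
    exact this.congr fun K => (e K).symm
  have l1 : ∀ K, ∫ s, |Y s - Z K s| ∂P ≤ Real.sqrt (∫ s, (Y s - Z K s) ^ 2 ∂P) := by
    intro K
    have h1 := cs (P := P) (a := fun s => |Y s - Z K s|) (b := fun _ => 1) (mD K).abs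
      measurable_const (by simpa only [sq_abs] using iD K) (by simp)
    simp only [mul_one, sq_abs, one_pow, integral_const, probReal_univ, smul_eq_mul] at h1
    exact Real.le_sqrt_of_sq_le h1
  have iA : ∀ K, Integrable (fun s => |Y s - Z K s|) P := fun K => (l2_l1 (mD K) (iD K)).abs
  have gen : ∀ (t : ℝ) {k : ℝ → ℝ}, (∀ x y, |k x - k y| ≤ |x - y|) → Measurable k →
      (∀ x, |k x| ≤ 1) → Tendsto (fun K => ∫ s, k (t * Z K s) ∂P) atTop
        (𝓝 (∫ s, k (t * Y s) ∂P)) := by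
    intro t k lk mk bk
    rw [tendsto_iff_norm_sub_tendsto_zero]
    have b : ∀ {X : S → ℝ}, Measurable X → Integrable (fun s => k (t * X s)) P := by
      intro X mX
      refine Integrable.mono' (integrable_const (1 : ℝ))
        (mk.comp (mX.const_mul t)).aestronglyMeasurable (ae_of_all _ fun s => ?_)
      exact bk _
    refine squeeze_zero (fun K => norm_nonneg _) (fun K => ?_)
      (by simpa using sq1.const_mul |t|)
    rw [← integral_sub (b (mZ K)) (b mY)]
    calc ‖∫ s, (k (t * Z K s) - k (t * Y s)) ∂P‖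
        ≤ ∫ s, ‖k (t * Z K s) - k (t * Y s)‖ ∂P := norm_integral_le_integral_norm _
      _ ≤ ∫ s, |t| * |Y s - Z K s| ∂P := by
          refine integral_mono ((b (mZ K)).sub (b mY)).norm ((iA K).const_mul _) fun s => ?_
          refine (lk _ _).trans (le_of_eq ?_)
          rw [← mul_sub, abs_mul, abs_sub_comm]
      _ = |t| * ∫ s, |Y s - Z K s| ∂P := integral_const_mul _ _
      _ ≤ |t| * Real.sqrt (∫ s, (Y s - Z K s) ^ 2 ∂P) :=
          mul_le_mul_of_nonneg_left (l1 K) (abs_nonneg t)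
  intro t
  constructor
  · have h1 := gen t Real.abs_cos_sub_cos_le Real.measurable_cos Real.abs_cos_le_one
    have h2 : Tendsto (fun K => Real.exp (-((∫ s, Z K s ^ 2 ∂P) * t ^ 2 / 2))) atTop
        (𝓝 (Real.exp (-((∫ s, Y s ^ 2 ∂P) * t ^ 2 / 2)))) :=
      (Real.continuous_exp.tendsto _).comp (((vK.mul_const _).div_const _).neg)
    refine tendsto_nhds_unique h1 (h2.congr fun K => ((g K t).1).symm)
  · have h1 := gen t Real.abs_sin_sub_sin_le Real.measurable_sin Real.abs_sin_le_one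
    refine tendsto_nhds_unique h1 (tendsto_const_nhds.congr fun K => ((g K t).2).symm)

end

end Pool.Agent.Run7.h143.RW
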