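import Pool.Agent.Run7.h143.RW.D

/-!
Waves in the plane with independent coefficients: the values at finitely many points.
-/

set_option autoImplicit false
open MeasureTheory Filter Topology ProbabilityTheory
open scoped ContDiff ENNReal

namespace Pool.Agent.Run7.h143.RW

open Pool.Agent.Y139.SW

noncomputable section

variable {S : Type*} [MeasurableSpace S] {P : Measure S} {τ : E 2 → S → S}

lemma Rep.sumF {ι : Type*} (t : Finset ι) {H : ι → (E 2 → ℝ) → E 2 → ℝ} (hH : ∀ i, Rep (H i))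
    (c : ι → ℝ) : Rep (fun f y => ∑ i ∈ t, c i * H i f y) := by
  classical
  induction t using Finset.induction_on with
  | empty => exact Rep.zero.congr fun f _ y => by simp
  | insert i t hi ih =>
    refine ((hH i).lin ih (c i) 1).congr fun f _ y => ?_
    rw [Finset.sum_insert hi]; ring

lemma RR_meas [IsProbabilityMeasure P] (hτ : ∀ x, MeasurePreserving (τ x) P P) (x : E 2)
    (K : ℕ) {G : S → E 2 → ℝ} (W : Wave P τ G) (t : ℝ) : Measurable fun s => RR K x (G s) t := by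
  unfold RR
  refine (W.sf.meas _).sub (Finset.measurable_fun_sum _ fun k _ => ?_)
  exact (((Wit hτ W x k).sf.meas 0).const_mul _)

lemma RR_real [IsProbabilityMeasure P] (hτ : ∀ x, MeasurePreserving (τ x) P P) (x : E 2)
    (K : ℕ) {G : S → E 2 → ℝ} (W : Wave P τ G) :
    Integrable (fun s => RR K x (G s) 1 ^ 2) P ∧ ∫ s, RR K x (G s) 1 ^ 2 ∂P ≤
      (x 0 ^ 2 + x 1 ^ 2) ^ K / (K.factorial : ℝ) * ∫ s, G s 0 ^ 2 ∂P := by
  have h := RR_bd hτ x K W 1 zero_le_one
  rw [one_pow, mul_one] at h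
  have m := (RR_meas hτ x K W 1).pow_const 2
  have hi : Integrable (fun s => RR K x (G s) 1 ^ 2) P :=
    (lintegral_ofReal_ne_top_iff_integrable m.aestronglyMeasurable
      (ae_of_all _ fun s => sq_nonneg _)).1 (ne_top_of_le_ne_top ENNReal.ofReal_ne_top h)
  refine ⟨hi, ?_⟩
  rw [← ofReal_integral_eq_lintegral_ofReal hi (ae_of_all _ fun s => sq_nonneg _)] at h
  have g0 : 0 ≤ ∫ s, G s 0 ^ 2 ∂P := integral_nonneg fun s => sq_nonneg _
  exact (ENNReal.ofReal_le_ofReal_iff (by positivity)).1 h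

/-- the Taylor polynomials of a linear combination of values -/
def HH {m : ℕ} (x : Fin m → E 2) (c : Fin m → ℝ) (K : ℕ) (f : E 2 → ℝ) (y : E 2) : ℝ :=
  ∑ j, c j * ∑ k ∈ Finset.range K, 1 / (k.factorial : ℝ) * (DX (x j))^[k] f y

lemma HH_rep {m : ℕ} (x : Fin m → E 2) (c : Fin m → ℝ) (K : ℕ) : Rep (HH x c K) :=
  Rep.sumF Finset.univ (fun j => Rep.sum (fun k => Rep.iter (x j) k)
    (fun k => 1 / (k.factorial : ℝ)) K) c

lemma HH_dif {m : ℕ} (x : Fin m → E 2) (c : Fin m → ℝ) (K : ℕ) (f : E 2 → ℝ) :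
    ∑ j, c j * f (x j) - HH x c K f 0 = ∑ j, c j * RR K (x j) f 1 := by
  unfold HH RR
  rw [← Finset.sum_sub_distrib]
  refine Finset.sum_congr rfl fun j _ => ?_
  simp only [one_smul, one_pow]
  ring

lemma HH_lim [IsProbabilityMeasure P] (hτ : ∀ x, MeasurePreserving (τ x) P P)
    {G : S → E 2 → ℝ} (W : Wave P τ G) {m : ℕ} (x : Fin m → E 2) (c : Fin m → ℝ) :
    (∀ K, Integrable (fun s => (∑ j, c j * G s (x j) - HH x c K (G s) 0) ^ 2) P) ∧
    Tendsto (fun K => ∫ s, (∑ j, c j * G s (x j) - HH x c K (G s) 0) ^ 2 ∂P) atTop (𝓝 0) := by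
  have b : ∀ K s, (∑ j, c j * G s (x j) - HH x c K (G s) 0) ^ 2 ≤
      (∑ j, c j ^ 2) * ∑ j, RR K (x j) (G s) 1 ^ 2 := fun K s => by
    rw [HH_dif]
    exact Finset.sum_mul_sq_le_sq_mul_sq _ _ _
  have i1 : ∀ K, Integrable (fun s => (∑ j, c j ^ 2) * ∑ j, RR K (x j) (G s) 1 ^ 2) P :=
    fun K => (integrable_finsetSum _ fun j _ => (RR_real hτ (x j) K W).1).const_mul _
  have m1 : ∀ K, Measurable fun s => (∑ j, c j * G s (x j) - HH x c K (G s) 0) ^ 2 := by
    intro K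
    simp only [HH_dif]
    exact (Finset.measurable_fun_sum _ fun j _ => (RR_meas hτ (x j) K W 1).const_mul _).pow_const 2
  have i2 : ∀ K, Integrable (fun s => (∑ j, c j * G s (x j) - HH x c K (G s) 0) ^ 2) P :=
    fun K => (i1 K).mono' (m1 K).aestronglyMeasurable (ae_of_all _ fun s => by
      rw [Real.norm_eq_abs, abs_of_nonneg (sq_nonneg _)]
      exact b K s)
  refine ⟨i2, ?_⟩
  have lim : Tendsto (fun K : ℕ => (∑ j, c j ^ 2) * ∑ j, ((x j 0 ^ 2 + x j 1 ^ 2) ^ K /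
      (K.factorial : ℝ) * ∫ s, G s 0 ^ 2 ∂P)) atTop (𝓝 0) := by
    have h : Tendsto (fun K : ℕ => ∑ j, ((x j 0 ^ 2 + x j 1 ^ 2) ^ K /
        (K.factorial : ℝ) * ∫ s, G s 0 ^ 2 ∂P)) atTop (𝓝 (∑ _j : Fin m, (0 : ℝ))) := by
      refine tendsto_finsetSum _ fun j _ => ?_
      have := (FloorSemiring.tendsto_pow_div_factorial_atTop (x j 0 ^ 2 + x j 1 ^ 2)).mul_const
        (∫ s, G s 0 ^ 2 ∂P)
      rwa [zero_mul] at this
    have := h.const_mul (∑ j, c j ^ 2)
    simpa using this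
  refine squeeze_zero (fun K => integral_nonneg fun s => sq_nonneg _) (fun K => ?_) lim
  refine (integral_mono (i2 K) (i1 K) (b K)).trans ?_
  rw [integral_const_mul, integral_finsetSum _ fun j _ => (RR_real hτ (x j) K W).1]
  refine mul_le_mul_of_nonneg_left (Finset.sum_le_sum fun j _ => ?_)
    (Finset.sum_nonneg fun j _ => sq_nonneg _)
  exact (RR_real hτ (x j) K W).2

/-- a stationary wave with independent coefficients is a Gaussian field -/
theorem main [IsProbabilityMeasure P] (hτ : ∀ x, MeasurePreserving (τ x) P P)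
    {G : S → E 2 → ℝ} (W : Wave P τ G) (hi : iIndepFun (cf G) P) {m : ℕ} (x : Fin m → E 2)
    (c : Fin m → ℝ) : GT P (fun s => ∑ j, c j * G s (x j))
      (∫ s, (∑ j, c j * G s (x j)) ^ 2 ∂P) := by
  have so : ∀ s, Sol (G s) := fun s => ⟨W.sf.smooth s, W.eq s⟩
  obtain ⟨i2, lim⟩ := HH_lim hτ W x c
  have r : ∀ K, ∃ (N : ℕ) (a b : ℕ → ℝ), ∀ s, HH x c K (G s) 0 =
      ∑ n ∈ Finset.range N, (a n * (RI (G s) n).1 0 + b n * (RI (G s) n).2 0) := fun K => by
    obtain ⟨N, a, b, -, h⟩ := HH_rep x c K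
    exact ⟨N, a, b, fun s => h (G s) (so s) 0⟩
  have mZ : ∀ K, Measurable fun s => HH x c K (G s) 0 := fun K => by
    obtain ⟨N, a, b, h⟩ := r K
    simp only [h]
    exact (GT_sum hτ W hi a b N).1
  have iZ : ∀ K, Integrable (fun s => HH x c K (G s) 0 ^ 2) P := fun K => by
    obtain ⟨N, a, b, h⟩ := r K
    simp only [h]
    exact (GT_sum hτ W hi a b N).2.1
  have g : ∀ K, GT P (fun s => HH x c K (G s) 0) (∫ s, HH x c K (G s) 0 ^ 2 ∂P) := fun K => by
    obtain ⟨N, a, b, h⟩ := r K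
    simp only [h]
    exact (GT_sum hτ W hi a b N).2.2
  have mY : Measurable fun s => ∑ j, c j * G s (x j) :=
    Finset.measurable_fun_sum _ fun j _ => (W.sf.meas _).const_mul _
  have iY : Integrable (fun s => (∑ j, c j * G s (x j)) ^ 2) P := by
    have h := (i2 0).add (iZ 0)
    have e : ∀ s, HH x c 0 (G s) 0 = 0 := fun s => by unfold HH; simp
    have := i2 0
    simp only [e, sub_zero] at this
    exact this
  exact GT_lim mY mZ iY i2 lim g

lemma law_of [IsProbabilityMeasure P] {Y : S → ℝ} (mY : Measurable Y) {v : ℝ} (v0 : 0 ≤ v)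
    (h : GT P Y v) : P.map Y = gaussianReal 0 v.toNNReal := by
  have : IsProbabilityMeasure (P.map Y) := Measure.isProbabilityMeasure_map mY.aemeasurable
  refine Measure.ext_of_charFun (funext fun t => ?_)
  rw [charFun_gaussianReal, charFun_apply_real, integral_map mY.aemeasurable
    (by fun_prop : Continuous fun x : ℝ => Complex.exp (t * x * Complex.I)).aestronglyMeasurable]
  have e : ∀ s, Complex.exp (t * Y s * Complex.I) = ((Real.cos (t * Y s) : ℝ) : ℂ) +
      ((Real.sin (t * Y s) : ℝ) : ℂ) * Complex.I := fun s => by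
    rw [Complex.exp_mul_I]
    push_cast
    rfl
  simp only [e]
  obtain ⟨h1, h2⟩ := h t
  obtain ⟨i1, i2⟩ := trig_int mY t (P := P)
  rw [integral_add i1.ofReal (i2.ofReal.mul_const _), integral_mul_const]
  have e1 := integral_ofReal (μ := P) (𝕜 := ℂ) (f := fun s => Real.cos (t * Y s))
  have e2 := integral_ofReal (μ := P) (𝕜 := ℂ) (f := fun s => Real.sin (t * Y s))
  simp only [Complex.coe_algebraMap] at e1 e2
  have e1' : ∫ s, ((Real.cos (t * Y s) : ℝ) : ℂ) ∂P = ((∫ s, Real.cos (t * Y s) ∂P : ℝ) : ℂ) := e1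
  have e2' : ∫ s, ((Real.sin (t * Y s) : ℝ) : ℂ) ∂P = ((∫ s, Real.sin (t * Y s) ∂P : ℝ) : ℂ) := e2
  rw [e1', e2', h1, h2]
  rw [Real.coe_toNNReal v v0]
  push_cast
  simp

end

end Pool.Agent.Run7.h143.RW
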