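import Pool.Agent.Run7.h143.RW.V

/-!
Stationary waves: from stationarity in law to the space of solutions.
-/

set_option autoImplicit false
open MeasureTheory Filter Topology ProbabilityTheory
open scoped ContDiff ENNReal

namespace Pool.Agent.Run7.h143.RW

open Pool.Agent.Y139.SW

noncomputable section

/-- the space of smooth solutions -/
abbrev Sq (d : ℕ) : Type := {f : E d → ℝ // ContDiff ℝ ∞ f ∧ ∀ y, Lap f y = -f y}

variable {d : ℕ}

lemma D_sh (f : E d → ℝ) (x : E d) (i : Fin d) :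
    D i (fun y => f (y + x)) = fun y => D i f (y + x) := by
  funext y
  show fderiv ℝ (fun y => f (y + x)) y _ = fderiv ℝ f (y + x) _
  rw [fderiv_comp_add_right]

lemma Lap_sh (f : E d → ℝ) (x y : E d) : Lap (fun y => f (y + x)) y = Lap f (y + x) := by
  unfold Lap
  refine Finset.sum_congr rfl fun i _ => ?_
  rw [D_sh, D_sh]

/-- the shift -/
def sf (x : E d) (f : Sq d) : Sq d :=
  ⟨fun y => f.1 (y + x), f.2.1.comp (contDiff_id.add contDiff_const), fun y => by
    rw [Lap_sh]; exact f.2.2 _⟩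

lemma sf_me (x : E d) : Measurable (sf x) := by
  refine Measurable.subtype_mk (measurable_pi_iff.2 fun y => ?_)
  exact (measurable_pi_apply (y + x)).comp measurable_subtype_coe

variable {S : Type*} [MeasurableSpace S] {P : Measure S}

theorem transfer [IsProbabilityMeasure P] {F : S → E d → ℝ} (mF : ∀ y, Measurable fun s => F s y)
    (sF : ∀ s, ContDiff ℝ ∞ (F s)) (eF : ∀ s y, Lap (F s) y + F s y = 0)
    (st : ∀ x : E d, P.map (fun s y => F s (y + x)) = P.map (fun s y => F s y))
    (l2 : Integrable (fun s => F s 0 ^ 2) P) :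
    ∃ Φ : S → Sq d, Measurable Φ ∧ (∀ s, (Φ s).1 = F s) ∧
      (∀ x : E d, MeasurePreserving (sf x) (P.map Φ) (P.map Φ)) ∧
      Wave (P.map Φ) sf (fun f : Sq d => f.1) := by
  obtain ⟨Φ, hΦ⟩ : ∃ Φ : S → Sq d, Φ = fun s => ⟨F s, sF s, fun y => by
    have := eF s y; linarith⟩ := ⟨_, rfl⟩
  have v1 : ∀ s, (Φ s).1 = F s := fun s => by rw [hΦ]
  have mΦ : Measurable Φ := by
    rw [hΦ]
    exact Measurable.subtype_mk (measurable_pi_iff.2 mF)
  have hQ : IsProbabilityMeasure (P.map Φ) := Measure.isProbabilityMeasure_map mΦ.aemeasurable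
  have hτ : ∀ x : E d, MeasurePreserving (sf x) (P.map Φ) (P.map Φ) := by
    intro x
    refine ⟨sf_me x, ?_⟩
    rw [Measure.map_map (sf_me x) mΦ]
    ext A mA
    obtain ⟨B, mB, rfl⟩ := mA
    have e1 : ((sf x ∘ Φ) ⁻¹' (Subtype.val ⁻¹' B)) = (fun s y => F s (y + x)) ⁻¹' B := by
      ext s
      show (fun y => (Φ s).1 (y + x)) ∈ B ↔ (fun y => F s (y + x)) ∈ B
      rw [v1]
    have e2 : (Φ ⁻¹' (Subtype.val ⁻¹' B)) = (fun s y => F s y) ⁻¹' B := by
      ext s
      show (Φ s).1 ∈ B ↔ (fun y => F s y) ∈ B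
      rw [v1]
    have mV : MeasurableSet (Subtype.val ⁻¹' B : Set (Sq d)) := ⟨B, mB, rfl⟩
    rw [Measure.map_apply ((sf_me x).comp mΦ) mV, Measure.map_apply mΦ mV, e1, e2,
      ← Measure.map_apply (measurable_pi_iff.2 fun y => mF (y + x)) mB,
      ← Measure.map_apply (measurable_pi_iff.2 fun y => mF y) mB, st x]
  refine ⟨Φ, mΦ, v1, hτ, ⟨⟨fun y => (measurable_pi_apply y).comp measurable_subtype_coe,
    fun f => f.2.1, fun x f y => rfl⟩, fun f y => f.2.2 y, ?_⟩⟩
  have m0 : Measurable fun f : Sq d => f.1 0 :=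
    (measurable_pi_apply 0).comp measurable_subtype_coe
  refine (integrable_map_measure (m0.pow_const 2).aestronglyMeasurable mΦ.aemeasurable).2 ?_
  refine l2.congr (ae_of_all _ fun s => ?_)
  show F s 0 ^ 2 = (Φ s).1 0 ^ 2
  rw [v1]

/-- waves in the plane with independent coefficients -/
theorem plane [IsProbabilityMeasure P] {F : S → E 2 → ℝ} (mF : ∀ y, Measurable fun s => F s y)
    (sF : ∀ s, ContDiff ℝ ∞ (F s)) (eF : ∀ s y, Lap (F s) y + F s y = 0)
    (st : ∀ x : E 2, P.map (fun s y => F s (y + x)) = P.map (fun s y => F s y))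
    (l2 : Integrable (fun s => F s 0 ^ 2) P) (hi : iIndepFun (cf F) P) :
    (∀ (m : ℕ) (x : Fin m → E 2) (c : Fin m → ℝ), P.map (fun s => ∑ j, c j * F s (x j)) =
      gaussianReal 0 (∫ s, (∑ j, c j * F s (x j)) ^ 2 ∂P).toNNReal) ∧
    ∀ x y : E 2, ∫ s, F s x * F s y ∂P =
      (1 / (2 * Real.pi) * ∫ θ in (0 : ℝ)..2 * Real.pi, Real.cos (ph θ (x - y))) *
        ∫ s, F s 0 ^ 2 ∂P := by
  obtain ⟨Φ, mΦ, v1, hτ, W⟩ := transfer mF sF eF st l2
  have hQ : IsProbabilityMeasure (P.map Φ) := Measure.isProbabilityMeasure_map mΦ.aemeasurable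
  have hi' : iIndepFun (cf (fun f : Sq 2 => f.1)) (P.map Φ) := by
    rw [iIndepFun_iff_measure_inter_preimage_eq_mul] at hi ⊢
    intro T A hA
    have m1 : ∀ i ∈ T, MeasurableSet ((cf (fun f : Sq 2 => f.1) i) ⁻¹' (A i)) := fun i hiT =>
      cf_meas hτ W i (hA i hiT)
    rw [Measure.map_apply mΦ (Finset.measurableSet_biInter _ m1)]
    have e1 : ∀ i, Φ ⁻¹' ((cf (fun f : Sq 2 => f.1) i) ⁻¹' (A i)) = (cf F i) ⁻¹' (A i) := by
      intro i
      ext s
      show ((RI (Φ s).1 i).1 0, (RI (Φ s).1 i).2 0) ∈ A i ↔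
        ((RI (F s) i).1 0, (RI (F s) i).2 0) ∈ A i
      rw [v1]
    rw [Set.preimage_iInter₂]
    simp only [e1]
    rw [hi T hA]
    refine Finset.prod_congr rfl fun i hiT => ?_
    rw [Measure.map_apply mΦ (m1 i hiT), e1]
  constructor
  · intro m x c
    have h := main hτ W hi' x c
    have mY : Measurable fun f : Sq 2 => ∑ j, c j * f.1 (x j) :=
      Finset.measurable_fun_sum _ fun j _ => (W.sf.meas _).const_mul _
    have h2 := law_of mY (integral_nonneg fun f => sq_nonneg _) h
    rw [Measure.map_map mY mΦ, integral_map mΦ.aemeasurable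
      (mY.pow_const 2).aestronglyMeasurable] at h2
    have e : ((fun f : Sq 2 => ∑ j, c j * f.1 (x j)) ∘ Φ) = fun s => ∑ j, c j * F s (x j) := by
      funext s
      show ∑ j, c j * (Φ s).1 (x j) = _
      rw [v1]
    rw [e] at h2
    simp only [v1] at h2
    exact h2
  · intro x y
    have h := cov hτ W hi' x y
    have mm : Measurable fun f : Sq 2 => f.1 x * f.1 y := (W.sf.meas x).mul (W.sf.meas y)
    rw [integral_map mΦ.aemeasurable mm.aestronglyMeasurable,
      integral_map mΦ.aemeasurable (W.m0.pow_const 2).aestronglyMeasurable] at h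
    simp only [v1] at h
    exact h

/-- waves whose mean square gradient does not depend on the value -/
theorem point [IsProbabilityMeasure P] {F : S → E d → ℝ} (mF : ∀ y, Measurable fun s => F s y)
    (sF : ∀ s, ContDiff ℝ ∞ (F s)) (eF : ∀ s y, Lap (F s) y + F s y = 0)
    (st : ∀ x : E d, P.map (fun s y => F s (y + x)) = P.map (fun s y => F s y))
    (l2 : Integrable (fun s => F s 0 ^ 2) P) {v : ℝ}
    (hv : P[gr F | MeasurableSpace.comap (fun s => F s 0) inferInstance] =ᵐ[P] fun _ => v) :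
    v = ∫ s, F s 0 ^ 2 ∂P ∧ P.map (fun s => F s 0) = gaussianReal 0 v.toNNReal := by
  obtain ⟨Φ, mΦ, v1, hτ, W⟩ := transfer mF sF eF st l2
  have hQ : IsProbabilityMeasure (P.map Φ) := Measure.isProbabilityMeasure_map mΦ.aemeasurable
  have W1 := fun i => W.der hτ i
  have mg : Measurable (gr (fun f : Sq d => f.1)) :=
    Finset.measurable_fun_sum _ fun i _ => (W1 i).m0.pow_const 2
  have ig : Integrable (gr (fun f : Sq d => f.1)) (P.map Φ) :=
    integrable_finsetSum _ fun i _ => (W1 i).l2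
  have eg : ∀ s, gr (fun f : Sq d => f.1) (Φ s) = gr F s := fun s => by
    show ∑ i, D i (Φ s).1 0 ^ 2 = ∑ i, D i (F s) 0 ^ 2
    rw [v1]
  have igP : Integrable (gr F) P := by
    have h := (integrable_map_measure mg.aestronglyMeasurable mΦ.aemeasurable).1 ig
    exact h.congr (ae_of_all _ fun s => eg s)
  have hm : MeasurableSpace.comap (fun s => F s 0) inferInstance ≤ ‹MeasurableSpace S› :=
    (mF 0).comap_le
  have key : ∀ k : ℝ → ℝ, Measurable k → (∀ x, |k x| ≤ 1) →
      ∫ s, k (F s 0) * gr F s ∂P = v * ∫ s, k (F s 0) ∂P := by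
    intro k mk bk
    have mk1 : StronglyMeasurable[MeasurableSpace.comap (fun s => F s 0) inferInstance]
        (fun s => k (F s 0)) :=
      (mk.comp (comap_measurable _)).stronglyMeasurable
    have ikg : Integrable (fun s => k (F s 0) * gr F s) P :=
      bd_mul (mk.comp (mF 0)) (fun s => bk _) igP
    have h1 : P[fun s => k (F s 0) * gr F s |
        MeasurableSpace.comap (fun s => F s 0) inferInstance] =ᵐ[P] fun s => k (F s 0) *
          (P[gr F | MeasurableSpace.comap (fun s => F s 0) inferInstance]) s :=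
      condExp_mul_of_stronglyMeasurable_left (μ := P) mk1 ikg igP
    rw [← integral_condExp hm, integral_congr_ae h1, ← integral_const_mul]
    refine integral_congr_ae ?_
    filter_upwards [hv] with s hs
    show k (F s 0) * (P[gr F | MeasurableSpace.comap (fun s => F s 0) inferInstance]) s = _
    rw [hs]; ring
  have keyQ : ∀ k : ℝ → ℝ, Measurable k → (∀ x, |k x| ≤ 1) →
      ∫ f : Sq d, k (f.1 0) * gr (fun f : Sq d => f.1) f ∂(P.map Φ) =
        v * ∫ f : Sq d, k (f.1 0) ∂(P.map Φ) := by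
    intro k mk bk
    have mm : Measurable fun f : Sq d => k (f.1 0) * gr (fun f : Sq d => f.1) f :=
      (mk.comp W.m0).mul mg
    have m0 : Measurable fun f : Sq d => k (f.1 0) := mk.comp W.m0
    rw [integral_map mΦ.aemeasurable mm.aestronglyMeasurable,
      integral_map mΦ.aemeasurable m0.aestronglyMeasurable]
    simp only [v1, eg]
    exact key k mk bk
  have hg := gauss_of hτ W (fun t => keyQ _ (Real.measurable_cos.comp (measurable_const_mul t))
    fun x => Real.abs_cos_le_one _) (fun t => keyQ _ (Real.measurable_sin.comp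
      (measurable_const_mul t)) fun x => Real.abs_sin_le_one _)
  have e0 : v = ∫ s, F s 0 ^ 2 ∂P := by
    have h1 := key (fun _ => 1) measurable_const (fun x => by simp)
    simp only [one_mul, integral_const, probReal_univ, smul_eq_mul, mul_one] at h1
    rw [← h1]
    have h2 : ∫ f, gr (fun f : Sq d => f.1) f ∂(P.map Φ) = ∫ f : Sq d, f.1 0 ^ 2 ∂(P.map Φ) := by
      rw [← W.energy hτ]
      exact integral_finsetSum _ fun i _ => (W1 i).l2
    rw [integral_map mΦ.aemeasurable mg.aestronglyMeasurable,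
      integral_map mΦ.aemeasurable (W.m0.pow_const 2).aestronglyMeasurable] at h2
    simp only [v1, eg] at h2
    exact h2
  refine ⟨e0, ?_⟩
  have v0 : 0 ≤ v := by rw [e0]; exact integral_nonneg fun s => sq_nonneg _
  have h2 := law_of W.m0 v0 hg
  rw [Measure.map_map W.m0 mΦ] at h2
  have e : ((fun f : Sq d => f.1 0) ∘ Φ) = fun s => F s 0 := by
    funext s
    show (Φ s).1 0 = _
    rw [v1]
  rw [e] at h2
  exact h2

end

end Pool.Agent.Run7.h143.RW
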