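import Pool.Agent.Run7.h143.RW.F

/-!
Waves in the plane with independent coefficients: the covariance.
-/

set_option autoImplicit false
open MeasureTheory Filter Topology ProbabilityTheory
open scoped ContDiff ENNReal

namespace Pool.Agent.Run7.h143.RW

open Pool.Agent.Y139.SW

noncomputable section

variable {S : Type*} [MeasurableSpace S] {P : Measure S} {τ : E 2 → S → S}

/-- the phase of a plane wave -/
def ph (θ : ℝ) (y : E 2) : ℝ := y 0 * Real.cos θ + y 1 * Real.sin θ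

lemma ph_d (θ : ℝ) (y : E 2) : HasFDerivAt (ph θ)
    (Real.cos θ • (EuclideanSpace.proj (0 : Fin 2) : E 2 →L[ℝ] ℝ) +
      Real.sin θ • (EuclideanSpace.proj (1 : Fin 2) : E 2 →L[ℝ] ℝ)) y := by
  have h := (Real.cos θ • (EuclideanSpace.proj (0 : Fin 2) : E 2 →L[ℝ] ℝ) +
      Real.sin θ • (EuclideanSpace.proj (1 : Fin 2) : E 2 →L[ℝ] ℝ)).hasFDerivAt (x := y)
  have e : (fun y : E 2 => (Real.cos θ • (EuclideanSpace.proj (0 : Fin 2) : E 2 →L[ℝ] ℝ) +
      Real.sin θ • (EuclideanSpace.proj (1 : Fin 2) : E 2 →L[ℝ] ℝ)) y) = ph θ := by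
    funext y
    show Real.cos θ * y 0 + Real.sin θ * y 1 = y 0 * Real.cos θ + y 1 * Real.sin θ
    ring
  rw [← e]
  exact h

/-- plane waves -/
def pw (κ c θ : ℝ) (y : E 2) : ℝ := κ * Real.cos (ph θ y + c)

lemma pw_d (κ c θ : ℝ) (y : E 2) : HasFDerivAt (pw κ c θ)
    (κ • (-Real.sin (ph θ y + c) • (Real.cos θ • (EuclideanSpace.proj (0 : Fin 2) : E 2 →L[ℝ] ℝ) +
      Real.sin θ • (EuclideanSpace.proj (1 : Fin 2) : E 2 →L[ℝ] ℝ)))) y :=
  (((ph_d θ y).add_const c).cos).const_mul κ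

lemma pw_D0 (κ c θ : ℝ) : D 0 (pw κ c θ) = pw (κ * Real.cos θ) (c + Real.pi / 2) θ := by
  funext y
  unfold D
  rw [(pw_d κ c θ y).fderiv]
  unfold pw
  rw [← add_assoc, Real.cos_add_pi_div_two]
  simp
  ring

lemma pw_D1 (κ c θ : ℝ) : D 1 (pw κ c θ) = pw (κ * Real.sin θ) (c + Real.pi / 2) θ := by
  funext y
  unfold D
  rw [(pw_d κ c θ y).fderiv]
  unfold pw
  rw [← add_assoc, Real.cos_add_pi_div_two]
  simp
  ring

lemma pw_sol (κ c θ : ℝ) : Sol (pw κ c θ) := by
  constructor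
  · unfold pw ph
    fun_prop
  · intro y
    unfold Lap
    rw [Fin.sum_univ_two, pw_D0, pw_D0, pw_D1, pw_D1]
    unfold pw
    have e : ph θ y + (c + Real.pi / 2 + Real.pi / 2) = ph θ y + c + Real.pi := by ring
    rw [e, Real.cos_add_pi]
    have := Real.sin_sq_add_cos_sq θ
    linear_combination (-κ * Real.cos (ph θ y + c)) * this

lemma RI_pw (θ : ℝ) (n : ℕ) : RI (pw 1 0 θ) n =
    (pw (Real.cos (n * θ)) (n * (Real.pi / 2)) θ, pw (-Real.sin (n * θ)) (n * (Real.pi / 2)) θ) := by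
  induction n with
  | zero =>
    refine Prod.ext ?_ ?_
    · show pw 1 0 θ = _
      simp
    · show (fun _ => (0 : ℝ)) = _
      funext y
      simp [pw]
  | succ n ih =>
    have e3 : ((n + 1 : ℕ) : ℝ) * (Real.pi / 2) = n * (Real.pi / 2) + Real.pi / 2 := by
      push_cast; ring
    have e4 : ((n + 1 : ℕ) : ℝ) * θ = n * θ + θ := by push_cast; ring
    refine Prod.ext ?_ ?_
    · funext y
      show D 0 (RI (pw 1 0 θ) n).1 y + D 1 (RI (pw 1 0 θ) n).2 y = _
      rw [ih, pw_D0, pw_D1, e3, e4, Real.cos_add]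
      unfold pw
      ring
    · funext y
      show D 0 (RI (pw 1 0 θ) n).2 y - D 1 (RI (pw 1 0 θ) n).1 y = _
      rw [ih, pw_D0, pw_D1, e3, e4, Real.sin_add]
      unfold pw
      ring

lemma DX_pw (x : E 2) (θ : ℝ) (k : ℕ) : (DX x)^[k] (pw 1 0 θ) =
    pw (ph θ x ^ k) (k * (Real.pi / 2)) θ := by
  induction k with
  | zero => simp
  | succ k ih =>
    rw [Function.iterate_succ_apply', ih]
    funext y
    unfold DX
    rw [pw_D0, pw_D1]
    have e3 : ((k + 1 : ℕ) : ℝ) * (Real.pi / 2) = k * (Real.pi / 2) + Real.pi / 2 := by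
      push_cast; ring
    rw [e3]
    unfold pw
    rw [pow_succ]
    unfold ph
    ring

lemma ph0 (θ : ℝ) : ph θ 0 = 0 := by unfold ph; simp

lemma int_cos {n : ℕ} (hn : n ≠ 0) : ∫ θ in (0 : ℝ)..2 * Real.pi, Real.cos (n * θ) = 0 := by
  have h : (n : ℝ) ≠ 0 := by exact_mod_cast hn
  rw [intervalIntegral.integral_comp_mul_left (fun x => Real.cos x) h, integral_cos]
  have e : (n : ℝ) * (2 * Real.pi) = ((2 * n : ℕ) : ℝ) * Real.pi := by push_cast; ring
  rw [e, Real.sin_nat_mul_pi]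
  simp

lemma int_sin {n : ℕ} (hn : n ≠ 0) : ∫ θ in (0 : ℝ)..2 * Real.pi, Real.sin (n * θ) = 0 := by
  have h : (n : ℝ) ≠ 0 := by exact_mod_cast hn
  rw [intervalIntegral.integral_comp_mul_left (fun x => Real.sin x) h, integral_sin]
  rw [Real.cos_nat_mul_two_pi]
  simp

/-- covariances of linear expressions with the value at the origin -/
theorem repcov [IsProbabilityMeasure P] (hτ : ∀ x, MeasurePreserving (τ x) P P)
    {G : S → E 2 → ℝ} (W : Wave P τ G) (hi : iIndepFun (cf G) P) {H : (E 2 → ℝ) → E 2 → ℝ}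
    (hH : Rep H) : ∫ s, H (G s) 0 * G s 0 ∂P =
      (1 / (2 * Real.pi) * ∫ θ in (0 : ℝ)..2 * Real.pi, H (pw 1 0 θ) 0) *
        ∫ s, G s 0 ^ 2 ∂P := by
  have so : ∀ s, Sol (G s) := fun s => ⟨W.sf.smooth s, W.eq s⟩
  have p0 := Real.pi_pos
  obtain ⟨N, a, b, -, h⟩ := hH
  have V := fun n => Wlin (WRI hτ W n).1 (WRI hτ W n).2 (a n) (b n)
  have e1 : ∀ s, H (G s) 0 * G s 0 = ∑ n ∈ Finset.range N,
      (a n * (RI (G s) n).1 0 + b n * (RI (G s) n).2 0) * G s 0 := fun s => by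
    rw [h (G s) (so s) 0, Finset.sum_mul]
  have e2 : ∀ θ, H (pw 1 0 θ) 0 = ∑ n ∈ Finset.range N,
      (a n * (Real.cos (n * θ) * Real.cos (n * (Real.pi / 2))) +
        b n * (-Real.sin (n * θ) * Real.cos (n * (Real.pi / 2)))) := fun θ => by
    rw [h _ (pw_sol 1 0 θ) 0]
    refine Finset.sum_congr rfl fun n _ => ?_
    rw [RI_pw]
    unfold pw
    simp only [ph0, zero_add]
  simp only [e1, e2]
  rw [integral_finsetSum _ fun n _ => mul_l2 (V n).m0 W.m0 (V n).l2 W.l2,
    intervalIntegral.integral_finsetSum fun n _ => Continuous.intervalIntegrable (by fun_prop) _ _,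
    Finset.mul_sum, Finset.sum_mul]
  refine Finset.sum_congr rfl fun n _ => ?_
  rcases eq_or_ne n 0 with hn | hn
  · subst hn
    have e3 : ∀ s, (a 0 * (RI (G s) 0).1 0 + b 0 * (RI (G s) 0).2 0) * G s 0 =
        a 0 * G s 0 ^ 2 := fun s => by
      show (a 0 * G s 0 + b 0 * 0) * G s 0 = _
      ring
    simp only [e3]
    rw [integral_const_mul]
    have e6 : ∫ θ in (0 : ℝ)..2 * Real.pi, (a 0 * (Real.cos (((0 : ℕ) : ℝ) * θ) *
        Real.cos (((0 : ℕ) : ℝ) * (Real.pi / 2))) + b 0 * (-Real.sin (((0 : ℕ) : ℝ) * θ) *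
          Real.cos (((0 : ℕ) : ℝ) * (Real.pi / 2)))) = 2 * Real.pi * a 0 := by
      simp
    rw [e6]
    have e7 : 1 / (2 * Real.pi) * (2 * Real.pi * a 0) = a 0 := by field_simp
    rw [e7]
  · have ind : IndepFun (fun s => a n * (RI (G s) n).1 0 + b n * (RI (G s) n).2 0)
        (fun s => G s 0) P :=
      (hi.indepFun hn).comp (φ := fun p : ℝ × ℝ => a n * p.1 + b n * p.2)
        (ψ := fun p : ℝ × ℝ => p.1) (by fun_prop) measurable_fst
    rw [ind.integral_fun_mul_eq_mul_integral (V n).m0.aestronglyMeasurable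
      W.m0.aestronglyMeasurable, W.mean hτ, mul_zero]
    have e4 : ∫ θ in (0 : ℝ)..2 * Real.pi, (a n * (Real.cos (n * θ) *
        Real.cos (n * (Real.pi / 2))) + b n * (-Real.sin (n * θ) *
          Real.cos (n * (Real.pi / 2)))) = 0 := by
      have e5 : ∀ θ : ℝ, (a n * (Real.cos (n * θ) * Real.cos (n * (Real.pi / 2))) +
          b n * (-Real.sin (n * θ) * Real.cos (n * (Real.pi / 2)))) =
          (a n * Real.cos (n * (Real.pi / 2))) * Real.cos (n * θ) +
            (-b n * Real.cos (n * (Real.pi / 2))) * Real.sin (n * θ) := fun θ => by ring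
      simp only [e5]
      rw [intervalIntegral.integral_add (Continuous.intervalIntegrable (by fun_prop) _ _)
        (Continuous.intervalIntegrable (by fun_prop) _ _), intervalIntegral.integral_const_mul,
        intervalIntegral.integral_const_mul, int_cos hn, int_sin hn]
      ring
    rw [e4]; ring

lemma cos_hs (u : ℝ) : HasSum (fun k : ℕ => 1 / (k.factorial : ℝ) *
    (u ^ k * Real.cos (k * (Real.pi / 2)))) (Real.cos u) := by
  have h := NormedSpace.expSeries_div_hasSum_exp (𝔸 := ℂ) ((u : ℂ) * Complex.I)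
  have h2 := Complex.hasSum_re h
  have e : (NormedSpace.exp ((u : ℂ) * Complex.I)).re = Real.cos u := by
    rw [← Complex.exp_eq_exp_ℂ, Complex.exp_ofReal_mul_I_re]
  rw [e] at h2
  have e2 : (fun k : ℕ => 1 / (k.factorial : ℝ) * (u ^ k * Real.cos (k * (Real.pi / 2)))) =
      fun k : ℕ => (((u : ℂ) * Complex.I) ^ k / (k.factorial : ℂ)).re := by
    funext k
    have i0 : Complex.exp (((Real.pi / 2 : ℝ) : ℂ) * Complex.I) = Complex.I := by
      rw [Complex.exp_mul_I, ← Complex.ofReal_cos, ← Complex.ofReal_sin, Real.cos_pi_div_two,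
        Real.sin_pi_div_two]
      simp
    have i1 : Complex.I ^ k = Complex.exp (((k * (Real.pi / 2) : ℝ) : ℂ) * Complex.I) := by
      conv_lhs => rw [← i0]
      rw [← Complex.exp_nat_mul]
      congr 1
      push_cast
      ring
    have i2 : ((u : ℂ) * Complex.I) ^ k / (k.factorial : ℂ) = ((1 / (k.factorial : ℝ) * u ^ k : ℝ) :
        ℂ) * Complex.exp (((k * (Real.pi / 2) : ℝ) : ℂ) * Complex.I) := by
      rw [mul_pow, i1]
      push_cast
      ring
    rw [i2, Complex.re_ofReal_mul, Complex.exp_ofReal_mul_I_re]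
    ring
  rw [e2]
  exact h2

/-- the covariance with the value at the origin -/
theorem cov0 [IsProbabilityMeasure P] (hτ : ∀ x, MeasurePreserving (τ x) P P)
    {G : S → E 2 → ℝ} (W : Wave P τ G) (hi : iIndepFun (cf G) P) (x : E 2) :
    ∫ s, G s x * G s 0 ∂P =
      (1 / (2 * Real.pi) * ∫ θ in (0 : ℝ)..2 * Real.pi, Real.cos (ph θ x)) *
        ∫ s, G s 0 ^ 2 ∂P := by
  obtain ⟨i2, lim⟩ := HH_lim hτ W (fun _ : Fin 1 => x) (fun _ => (1 : ℝ))
  have so : ∀ s, Sol (G s) := fun s => ⟨W.sf.smooth s, W.eq s⟩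
  obtain ⟨Z, hZ⟩ : ∃ Z : ℕ → (E 2 → ℝ) → E 2 → ℝ,
      Z = fun K => HH (fun _ : Fin 1 => x) (fun _ => (1 : ℝ)) K := ⟨_, rfl⟩
  have rZ : ∀ K, Rep (Z K) := fun K => by rw [hZ]; exact HH_rep _ _ K
  have es : ∀ s, ∑ _j : Fin 1, (1 : ℝ) * G s x = G s x := fun s => by simp
  have i2' : ∀ K, Integrable (fun s => (G s x - Z K (G s) 0) ^ 2) P := fun K => by
    have := i2 K
    simp only [es] at this
    rw [hZ]; exact this
  have lim' : Tendsto (fun K => ∫ s, (G s x - Z K (G s) 0) ^ 2 ∂P) atTop (𝓝 0) := by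
    simp only [es] at lim
    rw [hZ]; exact lim
  have mZ : ∀ K, Measurable fun s => Z K (G s) 0 := fun K => by
    obtain ⟨N, a, b, -, h⟩ := rZ K
    have e : ∀ s, Z K (G s) 0 = _ := fun s => h (G s) (so s) 0
    simp only [e]
    exact (GT_sum hτ W hi a b N).1
  have iZ : ∀ K, Integrable (fun s => Z K (G s) 0 ^ 2) P := fun K => by
    obtain ⟨N, a, b, -, h⟩ := rZ K
    have e : ∀ s, Z K (G s) 0 = _ := fun s => h (G s) (so s) 0
    simp only [e]
    exact (GT_sum hτ W hi a b N).2.1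
  have mx : Measurable fun s => G s x := W.sf.meas x
  have mD : ∀ K, Measurable fun s => G s x - Z K (G s) 0 := fun K => mx.sub (mZ K)
  have t1 : Tendsto (fun K => ∫ s, (G s x - Z K (G s) 0) * G s 0 ∂P) atTop (𝓝 0) := by
    have sq : Tendsto (fun K => Real.sqrt ((∫ s, (G s x - Z K (G s) 0) ^ 2 ∂P) *
        ∫ s, G s 0 ^ 2 ∂P)) atTop (𝓝 0) := by
      have := (lim'.mul_const (∫ s, G s 0 ^ 2 ∂P)).sqrt
      simpa using this
    refine squeeze_zero_norm (fun K => ?_) sq
    exact Real.abs_le_sqrt (cs (mD K) W.m0 (i2' K) W.l2)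
  have ix : Integrable (fun s => G s x ^ 2) P := by
    have := st_integrable hτ (W.sf.mul W.sf) x (by simpa only [← pow_two] using W.l2)
    simpa only [← pow_two] using this
  have t2 : Tendsto (fun K => ∫ s, Z K (G s) 0 * G s 0 ∂P) atTop
      (𝓝 (∫ s, G s x * G s 0 ∂P)) := by
    have e : ∀ K, ∫ s, Z K (G s) 0 * G s 0 ∂P =
        ∫ s, G s x * G s 0 ∂P - ∫ s, (G s x - Z K (G s) 0) * G s 0 ∂P := by
      intro K
      rw [← integral_sub (mul_l2 mx W.m0 ix W.l2) (mul_l2 (mD K) W.m0 (i2' K) W.l2)]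
      congr 1; funext s; ring
    have := t1.const_sub (∫ s, G s x * G s 0 ∂P)
    rw [sub_zero] at this
    exact this.congr fun K => (e K).symm
  have t3 : Tendsto (fun K => (1 / (2 * Real.pi) * ∫ θ in (0 : ℝ)..2 * Real.pi,
      Z K (pw 1 0 θ) 0) * ∫ s, G s 0 ^ 2 ∂P) atTop
      (𝓝 ((1 / (2 * Real.pi) * ∫ θ in (0 : ℝ)..2 * Real.pi, Real.cos (ph θ x)) *
        ∫ s, G s 0 ^ 2 ∂P)) := by
    refine (Tendsto.const_mul _ ?_).mul_const _
    have ez : ∀ K θ, Z K (pw 1 0 θ) 0 = ∑ k ∈ Finset.range K, 1 / (k.factorial : ℝ) *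
        (ph θ x ^ k * Real.cos (k * (Real.pi / 2))) := by
      intro K θ
      rw [hZ]
      show ∑ _j : Fin 1, (1 : ℝ) * ∑ k ∈ Finset.range K, 1 / (k.factorial : ℝ) *
        (DX x)^[k] (pw 1 0 θ) 0 = _
      simp only [DX_pw]
      unfold pw
      simp only [ph0, zero_add]
      simp
    refine intervalIntegral.tendsto_integral_filter_of_dominated_convergence
      (fun _ => Real.exp (|x 0| + |x 1|)) (.of_forall fun K => ?_) (.of_forall fun K => ?_)
      (by simp) ?_
    · simp only [ez]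
      have : Continuous fun θ => ∑ k ∈ Finset.range K, 1 / (k.factorial : ℝ) *
          (ph θ x ^ k * Real.cos (k * (Real.pi / 2))) := by
        unfold ph
        fun_prop
      exact this.aestronglyMeasurable
    · refine ae_of_all _ fun θ _ => ?_
      rw [ez]
      have hu : |ph θ x| ≤ |x 0| + |x 1| := by
        unfold ph
        refine (abs_add_le _ _).trans ?_
        rw [abs_mul, abs_mul]
        have h1 := mul_le_mul_of_nonneg_left (Real.abs_cos_le_one θ) (abs_nonneg (x 0))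
        have h2 := mul_le_mul_of_nonneg_left (Real.abs_sin_le_one θ) (abs_nonneg (x 1))
        linarith
      calc ‖∑ k ∈ Finset.range K, 1 / (k.factorial : ℝ) *
            (ph θ x ^ k * Real.cos (k * (Real.pi / 2)))‖
          ≤ ∑ k ∈ Finset.range K, ‖1 / (k.factorial : ℝ) *
            (ph θ x ^ k * Real.cos (k * (Real.pi / 2)))‖ := norm_sum_le _ _
        _ ≤ ∑ k ∈ Finset.range K, |ph θ x| ^ k / (k.factorial : ℝ) := by
            refine Finset.sum_le_sum fun k _ => ?_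
            rw [Real.norm_eq_abs, abs_mul, abs_mul, abs_pow, abs_of_nonneg (by positivity)]
            have h1 := mul_le_mul_of_nonneg_left (Real.abs_cos_le_one (k * (Real.pi / 2)))
              (pow_nonneg (abs_nonneg (ph θ x)) k)
            rw [mul_one] at h1
            calc 1 / (k.factorial : ℝ) * (|ph θ x| ^ k * |Real.cos (k * (Real.pi / 2))|)
                ≤ 1 / (k.factorial : ℝ) * |ph θ x| ^ k :=
                  mul_le_mul_of_nonneg_left h1 (by positivity)
              _ = |ph θ x| ^ k / (k.factorial : ℝ) := by ring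
        _ ≤ Real.exp |ph θ x| := Real.sum_le_exp_of_nonneg (abs_nonneg _) K
        _ ≤ Real.exp (|x 0| + |x 1|) := Real.exp_le_exp.2 hu
    · refine ae_of_all _ fun θ _ => ?_
      simp only [ez]
      exact (cos_hs (ph θ x)).tendsto_sum_nat
  have t4 : Tendsto (fun K => ∫ s, Z K (G s) 0 * G s 0 ∂P) atTop
      (𝓝 ((1 / (2 * Real.pi) * ∫ θ in (0 : ℝ)..2 * Real.pi, Real.cos (ph θ x)) *
        ∫ s, G s 0 ^ 2 ∂P)) := t3.congr fun K => (repcov hτ W hi (rZ K)).symm
  exact tendsto_nhds_unique t2 t4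

/-- the covariance -/
theorem cov [IsProbabilityMeasure P] (hτ : ∀ x, MeasurePreserving (τ x) P P)
    {G : S → E 2 → ℝ} (W : Wave P τ G) (hi : iIndepFun (cf G) P) (x y : E 2) :
    ∫ s, G s x * G s y ∂P =
      (1 / (2 * Real.pi) * ∫ θ in (0 : ℝ)..2 * Real.pi, Real.cos (ph θ (x - y))) *
        ∫ s, G s 0 ^ 2 ∂P := by
  rw [← cov0 hτ W hi (x - y)]
  have e : ∀ s, G s x * G s y = G (τ y s) (x - y) * G (τ y s) 0 := fun s => by
    rw [W.sf.cov, W.sf.cov, sub_add_cancel, zero_add]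
  have m : Measurable fun s => G s (x - y) * G s 0 := (W.sf.meas _).mul (W.sf.meas _)
  simp only [e]
  have h1 := integral_map (μ := P) (hτ y).measurable.aemeasurable
    (f := fun s => G s (x - y) * G s 0) m.aestronglyMeasurable
  rw [(hτ y).map_eq] at h1
  exact h1.symm

end

end Pool.Agent.Run7.h143.RW
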